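import Mathlib
import Pool.Agent.H.MP_59b15d_al.h95g.Kr
import Pool.Agent.H.MP_59b15d_al.h73e.La
import Pool.Agent.H.MP_59b15d_al.h76r.Sd

set_option autoImplicit false

/-!
# Products of loops of all handles, and mapping classes carrying one loop to them
-/

namespace Pool.Agent.H.MP_59b15d_al.H62G

open Pool.MP_59b15d_al.H24T Pool.MP_59b15d_al.H76R Pool.MP_59b15d_al.H73E
open Pool.MP_59b15d_al.H60G Pool.MP_59b15d_al.H95G

section

variable {m : ℕ} {G : Type*} [Group G] {a b : Fin m → G}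

/-- One of the four loops `1`, `b_l`, `a_l⁻¹`, `b_l a_l⁻¹` of the handle `l`. -/
def Lx (a b : Fin m → G) (e f : Finset ℕ) (l : ℕ) : G :=
  (if l ∈ e then ex b l else 1) * (if l ∈ f then (ex a l)⁻¹ else 1)

/-- The product of these loops, `lo ≤ l < lo + len`, in decreasing order. -/
def Wx (a b : Fin m → G) (e f : Finset ℕ) (lo : ℕ) : ℕ → G
  | 0 => 1
  | k + 1 => Lx a b e f (lo + k) * Wx a b e f lo k

theorem Wx_zero (e f : Finset ℕ) (lo : ℕ) : Wx a b e f lo 0 = 1 := rfl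

theorem Wx_succ (e f : Finset ℕ) (lo k : ℕ) :
    Wx a b e f lo (k + 1) = Lx a b e f (lo + k) * Wx a b e f lo k := rfl

theorem Wx_add (e f : Finset ℕ) (lo p q : ℕ) :
    Wx a b e f lo (p + q) = Wx a b e f (lo + p) q * Wx a b e f lo p := by
  induction q with
  | zero => simp [Wx_zero]
  | succ q ih => rw [← Nat.add_assoc, Wx_succ, Wx_succ, ih, mul_assoc, Nat.add_assoc]

theorem Lx_congr {e f e' f' : Finset ℕ} {l : ℕ} (h1 : l ∈ e ↔ l ∈ e') (h2 : l ∈ f ↔ l ∈ f') :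
    Lx a b e f l = Lx a b e' f' l := by
  unfold Lx
  by_cases h3 : l ∈ e
  · rw [if_pos h3, if_pos (h1.1 h3)]
    by_cases h4 : l ∈ f
    · rw [if_pos h4, if_pos (h2.1 h4)]
    · rw [if_neg h4, if_neg fun h5 => h4 (h2.2 h5)]
  · rw [if_neg h3, if_neg fun h5 => h3 (h1.2 h5)]
    by_cases h4 : l ∈ f
    · rw [if_pos h4, if_pos (h2.1 h4)]
    · rw [if_neg h4, if_neg fun h5 => h4 (h2.2 h5)]

theorem Wx_congr (e f e' f' : Finset ℕ) (lo : ℕ) (k : ℕ)
    (h1 : ∀ l, lo ≤ l → l < lo + k → (l ∈ e ↔ l ∈ e') ∧ (l ∈ f ↔ l ∈ f')) :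
    Wx a b e f lo k = Wx a b e' f' lo k := by
  induction k with
  | zero => rfl
  | succ k ih =>
    rw [Wx_succ, Wx_succ, ih fun l h2 h3 => h1 l h2 (by omega)]
    have h2 := h1 (lo + k) (by omega) (by omega)
    rw [Lx_congr h2.1 h2.2]

theorem Lx_fix {F : MulAut G} (e f : Finset ℕ) (l : ℕ)
    (h1 : F (ex a l) = ex a l ∧ F (ex b l) = ex b l) : F (Lx a b e f l) = Lx a b e f l := by
  unfold Lx
  rw [map_mul]
  congr 1
  · by_cases h3 : l ∈ e
    · rw [if_pos h3, h1.2]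
    · rw [if_neg h3, map_one]
  · by_cases h3 : l ∈ f
    · rw [if_pos h3, map_inv, h1.1]
    · rw [if_neg h3, map_one]

/-- An automorphism fixing the letters fixes the word. -/
theorem Wx_fix {F : MulAut G} (e f : Finset ℕ) (lo k : ℕ)
    (h1 : ∀ l, lo ≤ l → l < lo + k → F (ex a l) = ex a l ∧ F (ex b l) = ex b l) :
    F (Wx a b e f lo k) = Wx a b e f lo k := by
  induction k with
  | zero => exact map_one F
  | succ k ih =>
    rw [Wx_succ, map_mul, ih fun l h2 h3 => h1 l h2 (by omega),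
      Lx_fix e f _ (h1 (lo + k) (by omega) (by omega))]

theorem Lx_Hd (e f : Finset ℕ) {lo hi l : ℕ} (h1 : lo ≤ l) (h2 : l < hi) :
    Lx a b e f l ∈ Hd a b lo hi := by
  unfold Lx
  refine Subgroup.mul_mem _ ?_ ?_
  · by_cases h3 : l ∈ e
    · rw [if_pos h3]
      exact b_Hd h1 h2
    · rw [if_neg h3]
      exact Subgroup.one_mem _
  · by_cases h3 : l ∈ f
    · rw [if_pos h3]
      exact Subgroup.inv_mem _ (a_Hd h1 h2)
    · rw [if_neg h3]
      exact Subgroup.one_mem _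

theorem Wx_Hd (e f : Finset ℕ) (lo k : ℕ) : Wx a b e f lo k ∈ Hd a b lo (lo + k) := by
  induction k with
  | zero => exact Subgroup.one_mem _
  | succ k ih =>
    rw [Wx_succ]
    exact Subgroup.mul_mem _ (Lx_Hd e f (by omega) (by omega)) (Hd_mono le_rfl (by omega) ih)

theorem Wx_triv (e f : Finset ℕ) (lo k : ℕ)
    (h1 : ∀ l, lo ≤ l → l < lo + k → l ∉ e ∧ l ∉ f) : Wx a b e f lo k = 1 := by
  induction k with
  | zero => rfl
  | succ k ih =>
    have h2 := h1 (lo + k) (by omega) (by omega)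
    rw [Wx_succ, ih fun l h3 h4 => h1 l h3 (by omega), Lx, if_neg h2.1, if_neg h2.2, mul_one,
      mul_one]

/-- A nontrivial letter is an image of `b_l`. -/
theorem exists_letter (h : IsSurf a b) (e f : Finset ℕ) (l : ℕ) (hl : l < m)
    (hne : l ∈ e ∪ f) : ∃ τ ∈ MR h l (l + 1), τ (ex b l) = Lx a b e f l := by
  unfold Lx
  by_cases h1 : l ∈ e
  · rw [if_pos h1]
    by_cases h2 : l ∈ f
    · rw [if_pos h2]
      obtain ⟨A, hA, A1, A2⟩ := exists_A h l hl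
      refine ⟨A⁻¹, Subgroup.inv_mem _ hA, ?_⟩
      apply inv_of_eq
      rw [map_mul, map_inv, A1, A2, mul_inv_cancel_right]
    · rw [if_neg h2, mul_one]
      exact ⟨1, Subgroup.one_mem _, rfl⟩
  · have h2 : l ∈ f := by
      rcases Finset.mem_union.1 hne with h3 | h3
      · exact absurd h3 h1
      · exact h3
    rw [if_neg h1, if_pos h2, one_mul]
    obtain ⟨μ, h3, h4⟩ := rot h l hl
    refine ⟨μ⁻¹, Subgroup.inv_mem _ h3, ?_⟩
    apply inv_of_eq
    rw [map_inv, h4, inv_inv]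

/-- Passage from products of the `b_l` to all products. -/
theorem exists_rho (h : IsSurf a b) (e f : Finset ℕ) (lo : ℕ) (k : ℕ) (hk : lo + k ≤ m) :
    ∃ ρ ∈ MR h lo (lo + k), ρ (Wd b (e ∪ f) lo k) = Wx a b e f lo k := by
  induction k with
  | zero => exact ⟨1, Subgroup.one_mem _, rfl⟩
  | succ k ih =>
    obtain ⟨ρ, h1, h2⟩ := ih (by omega)
    have h1' : ρ ∈ MR h lo (lo + (k + 1)) := MR_mono h le_rfl (by omega) h1
    by_cases h3 : lo + k ∈ e ∪ f
    · obtain ⟨τ, h4, h5⟩ := exists_letter h e f (lo + k) (by omega) h3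
      refine ⟨ρ * τ, Subgroup.mul_mem _ h1' (MR_mono h (by omega) (by omega) h4), ?_⟩
      have h6 : τ (Wd b (e ∪ f) lo k) = Wd b (e ∪ f) lo k :=
        Wd_fix _ _ _ fun l h7 h8 => (MR_fix h h4 l (Or.inl (by omega))).2
      have h7 : ρ (Lx a b e f (lo + k)) = Lx a b e f (lo + k) :=
        Lx_fix _ _ _ (MR_fix h h1 (lo + k) (Or.inr le_rfl))
      rw [MulAut.mul_apply, Wd_succ_mem _ _ _ _ h3, map_mul, map_mul, h5, h6, h7, h2, Wx_succ]
    · refine ⟨ρ, h1', ?_⟩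
      have h4 : lo + k ∉ e ∧ lo + k ∉ f := by
        rw [Finset.mem_union, not_or] at h3
        exact h3
      rw [Wd_succ_not _ _ _ _ h3, h2, Wx_succ, Lx, if_neg h4.1, if_neg h4.2, mul_one, one_mul]

/-- Right claim. -/
theorem claimRx (h : IsSurf a b) (e f : Finset ℕ) (j : ℕ) (hj : j ≤ m)
    (hne : ∃ l, l < j ∧ l ∈ e ∪ f) : ∃ μ ∈ MR h 0 j, μ (ex b (j - 1)) = Wx a b e f 0 j := by
  obtain ⟨μ, h1, h2⟩ := claimR h (e ∪ f) j hj hne
  obtain ⟨ρ, h3, h4⟩ := exists_rho h e f 0 j (by omega)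
  rw [Nat.zero_add] at h3
  refine ⟨ρ * μ, Subgroup.mul_mem _ h3 h1, ?_⟩
  rw [MulAut.mul_apply, h2, h4]

/-- Left claim. -/
theorem claimLx (h : IsSurf a b) (e f : Finset ℕ) (len lo : ℕ) (hlen : lo + len ≤ m)
    (hne : ∃ l, lo ≤ l ∧ l < lo + len ∧ l ∈ e ∪ f) :
    ∃ μ ∈ MR h lo (lo + len), μ (ex a lo)⁻¹ = Wx a b e f lo len := by
  obtain ⟨μ, h1, h2⟩ := claimL h (e ∪ f) len lo hlen hne
  obtain ⟨ρ, h3, h4⟩ := exists_rho h e f lo len hlen
  refine ⟨ρ * μ, Subgroup.mul_mem _ h3 h1, ?_⟩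
  rw [MulAut.mul_apply, h2, h4]

end

end Pool.Agent.H.MP_59b15d_al.H62G
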