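import Mathlib
import Pool.Agent.H.MP_59b15d_al.h62g.Wx
import Pool.Agent.H.MP_59b15d_al.h73e.La
import Pool.Agent.H.MP_59b15d_al.h76r.Sd

set_option autoImplicit false

/-!
# The pigeonhole lemma for products of loops of all handles
-/

namespace Pool.Agent.H.MP_59b15d_al.H62G

open Pool.MP_59b15d_al.H24T Pool.MP_59b15d_al.H76R Pool.MP_59b15d_al.H73E
open Pool.MP_59b15d_al.H60G Pool.MP_59b15d_al.H95G

section

variable {m : ℕ} {G : Type*} [Group G] {a b : Fin m → G} {n : ℕ} {K : Subgroup G}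

/-- Two different letters `u`, `u'`: with `v = u u'⁻¹` an automorphism `F` of the handle makes
`v⁻¹ F(v)` or `v F(v)⁻¹` one of the generators. -/
theorem letters (h : IsSurf a b) (e f e' f' : Finset ℕ) (l : ℕ) (hl : l < m)
    (hne : ¬ ((l ∈ e ↔ l ∈ e') ∧ (l ∈ f ↔ l ∈ f'))) :
    ∃ F ∈ MR h l (l + 1), ∃ y, (y = ex a l ∨ y = ex b l) ∧
      ((Lx a b e f l * (Lx a b e' f' l)⁻¹)⁻¹ * F (Lx a b e f l * (Lx a b e' f' l)⁻¹) = y ∨
        (Lx a b e f l * (Lx a b e' f' l)⁻¹) * (F (Lx a b e f l * (Lx a b e' f' l)⁻¹))⁻¹ = y) := by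
  obtain ⟨A, hA, A1, A2⟩ := exists_A h l hl
  obtain ⟨B, hB, B1, B2⟩ := exists_B h l hl
  unfold Lx
  by_cases h1 : l ∈ e <;> by_cases h2 : l ∈ f <;> by_cases h3 : l ∈ e' <;> by_cases h4 : l ∈ f' <;>
    simp only [h1, h2, h3, h4, if_true, if_false, iff_true, iff_false, not_true, not_false_iff,
      and_self, and_true, true_and] at hne ⊢ <;> try exact absurd trivial hne
  -- `ba⁻¹` against `b`
  · refine ⟨B, hB, ex b l, Or.inr rfl, Or.inr ?_⟩
    simp only [map_mul, map_inv, map_one, B1, B2]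
    group
  -- `ba⁻¹` against `a⁻¹`
  · refine ⟨A, hA, ex a l, Or.inl rfl, Or.inl ?_⟩
    simp only [map_mul, map_inv, map_one, A1, A2]
    group
  -- `ba⁻¹` against `1`
  · refine ⟨A, hA, ex a l, Or.inl rfl, Or.inl ?_⟩
    simp only [map_mul, map_inv, map_one, A1, A2]
    group
  -- `b` against `ba⁻¹`
  · refine ⟨B, hB, ex b l, Or.inr rfl, Or.inl ?_⟩
    simp only [map_mul, map_inv, map_one, B1, B2]
    group
  -- `b` against `a⁻¹`
  · refine ⟨A, hA, ex a l, Or.inl rfl, Or.inl ?_⟩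
    simp only [map_mul, map_inv, map_one, A1, A2]
    group
  -- `b` against `1`
  · refine ⟨A, hA, ex a l, Or.inl rfl, Or.inl ?_⟩
    simp only [map_mul, map_inv, map_one, A1, A2]
    group
  -- `a⁻¹` against `ba⁻¹`
  · refine ⟨A, hA, ex a l, Or.inl rfl, Or.inr ?_⟩
    simp only [map_mul, map_inv, map_one, A1, A2]
    group
  -- `a⁻¹` against `b`
  · refine ⟨A, hA, ex a l, Or.inl rfl, Or.inr ?_⟩
    simp only [map_mul, map_inv, map_one, A1, A2]
    group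
  -- `a⁻¹` against `1`
  · refine ⟨B, hB, ex b l, Or.inr rfl, Or.inr ?_⟩
    simp only [map_mul, map_inv, map_one, B1, B2]
    group
  -- `1` against `ba⁻¹`
  · refine ⟨A, hA, ex a l, Or.inl rfl, Or.inr ?_⟩
    simp only [map_mul, map_inv, map_one, A1, A2]
    group
  -- `1` against `b`
  · refine ⟨A, hA, ex a l, Or.inl rfl, Or.inr ?_⟩
    simp only [map_mul, map_inv, map_one, A1, A2]
    group
  -- `1` against `a⁻¹`
  · refine ⟨B, hB, ex b l, Or.inr rfl, Or.inl ?_⟩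
    simp only [map_mul, map_inv, map_one, B1, B2]
    group

/-- If a conjugate of a generator of the handle `l` by a word in the later handles is in `GG` then
everything is. -/
theorem GG_of_conj {h : IsSurf a b} (hK : KK h n K) {l q : ℕ} (hj : l + 1 + q ≤ n)
    (hjm : l + 1 + q ≤ m) (e f : Finset ℕ) {y : G} (hy : y = ex a l ∨ y = ex b l)
    (hg : Wx a b e f (l + 1) q * y * (Wx a b e f (l + 1) q)⁻¹ ∈ GG hK (l + 1 + q) hj) :
    ∀ g ∈ Hd a b 0 (l + 1 + q), g ∈ GG hK (l + 1 + q) hj := by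
  set p := Wx a b e f (l + 1) q with hp
  have hb : p * ex b l * p⁻¹ ∈ GG hK (l + 1 + q) hj := by
    rcases hy with rfl | rfl
    · obtain ⟨B, hB, B1, B2⟩ := exists_B h l (by omega)
      have hfix : B p = p := Wx_fix e f _ _ fun k hk _ => MR_fix h hB k (Or.inr hk)
      have h7 := GG_inv hK hj (MR_mono h (Nat.zero_le _) (by omega) hB) hg
      simp only [map_mul, map_inv, hfix, B1] at h7
      have h8 := Subgroup.mul_mem _ (Subgroup.inv_mem _ hg) h7
      have h9 : (p * ex a l * p⁻¹)⁻¹ * (p * (ex a l * ex b l) * p⁻¹) = p * ex b l * p⁻¹ := by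
        group
      rwa [h9] at h8
    · exact hg
  by_cases hne : ∃ k, l + 1 ≤ k ∧ k < l + 1 + q ∧ k ∈ e ∪ f
  · obtain ⟨μ, m1, m2⟩ := claimLx h e f q (l + 1) hjm hne
    have hq : 0 < q := by
      obtain ⟨k, k1, k2, -⟩ := hne
      omega
    have m3 := (MR_fix h m1 l (Or.inl (by omega))).2
    have h10 := GG_inv hK hj (Subgroup.inv_mem _ (MR_mono h (Nat.zero_le _) le_rfl m1)) hb
    have h11 : μ⁻¹ (p * ex b l * p⁻¹) = (ex a (l + 1))⁻¹ * ex b l * ex a (l + 1) := by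
      apply inv_of_eq
      rw [map_mul, map_mul, m3, m2]
      have : μ (ex a (l + 1)) = p⁻¹ := by
        have h12 := m2
        rw [map_inv] at h12
        rw [hp, ← h12, inv_inv]
      rw [this]
    rw [h11] at h10
    obtain ⟨ν, n1, n2⟩ := pull h l (by omega)
    have h12 := GG_inv hK hj (MR_mono h (Nat.zero_le _) (by omega) n1) h10
    rw [n2] at h12
    exact GG_all hK hj hjm (l := l) (by omega) h12
  · have h10 : p = 1 := Wx_triv e f _ _ fun k k1 k2 => by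
      have h3 : k ∉ e ∪ f := fun h4 => hne ⟨k, k1, k2, h4⟩
      rw [Finset.mem_union, not_or] at h3
      exact h3
    rw [h10, one_mul, inv_one, mul_one] at hb
    exact GG_all hK hj hjm (l := l) (by omega) hb

theorem GG_of_first {h : IsSurf a b} (hK : KK h n K) {j : ℕ} (hj : j ≤ n) (hjm : j ≤ m)
    (e f e' f' : Finset ℕ) {l : ℕ} (hl : l < j)
    (h1 : ¬ ((l ∈ e ↔ l ∈ e') ∧ (l ∈ f ↔ l ∈ f')))
    (h3 : ∀ k, k < l → (k ∈ e ↔ k ∈ e') ∧ (k ∈ f ↔ k ∈ f'))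
    (hg : Wx a b e f 0 j * (Wx a b e' f' 0 j)⁻¹ ∈ GG hK j hj) :
    ∀ g ∈ Hd a b 0 j, g ∈ GG hK j hj := by
  obtain ⟨q, rfl⟩ : ∃ q, j = l + 1 + q := ⟨j - l - 1, by omega⟩
  set p := Wx a b e f (l + 1) q with hp
  set p' := Wx a b e' f' (l + 1) q with hp'
  set v := Lx a b e f l * (Lx a b e' f' l)⁻¹ with hv
  have e3 : Wx a b e f 0 (l + 1 + q) * (Wx a b e' f' 0 (l + 1 + q))⁻¹ = p * v * p'⁻¹ := by
    rw [Wx_add, Wx_succ, Nat.zero_add, Nat.zero_add, Wx_add, Wx_succ, Nat.zero_add, Nat.zero_add,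
      Wx_congr e f e' f' 0 l fun k _ hk => h3 k (by omega)]
    simp only [hp, hp', hv]
    group
  rw [e3] at hg
  obtain ⟨F, hF, y, hy, h5⟩ := letters h e f e' f' l (by omega) h1
  rw [← hv] at h5
  have hfix : F p = p ∧ F p' = p' :=
    ⟨Wx_fix e f _ _ fun k hk _ => MR_fix h hF k (Or.inr hk),
      Wx_fix e' f' _ _ fun k hk _ => MR_fix h hF k (Or.inr hk)⟩
  have h4 := GG_inv hK hj (MR_mono h (Nat.zero_le _) (by omega) hF) hg
  simp only [map_mul, map_inv, hfix.1, hfix.2] at h4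
  rcases h5 with h5 | h5
  · have h6 := Subgroup.mul_mem _ (Subgroup.inv_mem _ hg) h4
    have h7 : (p * v * p'⁻¹)⁻¹ * (p * F v * p'⁻¹) = p' * y * p'⁻¹ := by
      rw [← h5]
      group
    rw [h7] at h6
    exact GG_of_conj hK hj hjm e' f' hy h6
  · have h6 := Subgroup.mul_mem _ hg (Subgroup.inv_mem _ h4)
    have h7 : p * v * p'⁻¹ * (p * F v * p'⁻¹)⁻¹ = p * y * p⁻¹ := by
      rw [← h5]
      group
    rw [h7] at h6
    exact GG_of_conj hK hj hjm e f hy h6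

/-- The pigeonhole lemma. -/
theorem lemmaPx {h : IsSurf a b} (hK : KK h n K) {j : ℕ} (hj : j ≤ n) (hjm : j ≤ m)
    (e f e' f' : Finset ℕ) (hne : ∃ l, l < j ∧ ¬ ((l ∈ e ↔ l ∈ e') ∧ (l ∈ f ↔ l ∈ f')))
    (hg : Wx a b e f 0 j * (Wx a b e' f' 0 j)⁻¹ ∈ GG hK j hj) :
    ∀ g ∈ Hd a b 0 j, g ∈ GG hK j hj := by
  classical
  have h1 := Nat.find_spec hne
  have h2 : ∀ k, k < Nat.find hne → (k ∈ e ↔ k ∈ e') ∧ (k ∈ f ↔ k ∈ f') := by
    intro k hk
    by_contra h3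
    exact Nat.find_min hne hk ⟨by omega, h3⟩
  exact GG_of_first hK hj hjm e f e' f' h1.1 h1.2 h2 hg

end

end Pool.Agent.H.MP_59b15d_al.H62G
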