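import Mathlib
import Pool.Agent.H.MP_59b15d_al.h62g.Pg
import Pool.Agent.H.MP_59b15d_al.h95g.Rec
import Pool.Agent.H.MP_59b15d_al.h73e.La
import Pool.Agent.H.MP_59b15d_al.h76r.Sd

set_option autoImplicit false

/-!
# Many images of one loop
-/

namespace Pool.Agent.H.MP_59b15d_al.H62G

open Pool.MP_59b15d_al.H24T Pool.MP_59b15d_al.H76R Pool.MP_59b15d_al.H73E
open Pool.MP_59b15d_al.H60G Pool.MP_59b15d_al.H95G

section

variable {m : ℕ} {G : Type*} [Group G] {a b : Fin m → G} {n : ℕ} {K : Subgroup G}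

/-- The moves: for every image `μ b_i` of `b_i`. -/
theorem exists_Pmu (h : IsSurf a b) (i : ℕ) (hi : i + 1 < m) (T : MulAut G)
    (hT : T ∈ MR h (i + 1) (i + 2)) (T1 : T (ex a (i + 1)) = ex a (i + 1) * ex b (i + 1))
    (T2 : T (ex b (i + 1)) = ex b (i + 1)) (μ : MulAut G) (m1 : μ ∈ MR h 0 (i + 1)) :
    ∃ P ∈ MR h 0 (i + 2), (∀ z ∈ Hd a b 0 (i + 1), T (P z) = P z) ∧
      (P (ex a (i + 1)))⁻¹ * T (P (ex a (i + 1))) =
        (μ (ex b i))⁻¹ * ex b (i + 1) * μ (ex b i) := by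
  obtain ⟨P, p1, p2, p3, p4⟩ := exists_P h i hi
  have m3 := MR_fix h m1 (i + 1) (Or.inr le_rfl)
  have m1' : μ ∈ MR h 0 (i + 2) := MR_mono h le_rfl (by omega) m1
  have p1' : P ∈ MR h 0 (i + 2) := MR_mono h (Nat.zero_le _) (by omega) p1
  have T3 := MR_fix h hT i (Or.inl (by omega))
  have hTm' : ∀ z, T (μ z) = μ (T z) := fun z => MR_comm h (by omega) hT m1 z
  have hμi : μ⁻¹ (ex a (i + 1)) = ex a (i + 1) := inv_of_eq m3.1
  have h1 : ∀ z ∈ Hd a b 0 (i + 1), T (P z) = P z := by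
    intro z hz
    have h2 : Hd a b 0 (i + 1) ≤ MonoidHom.eqLocus ((T * P).toMonoidHom) P.toMonoidHom := by
      rw [Hd, Subgroup.closure_le]
      rintro g ⟨k, -, h4, hg⟩
      change T (P g) = P g
      by_cases hki : k = i
      · subst hki
        rcases hg with rfl | rfl
        · rw [p2]
          simp only [map_mul, T2, T3.1, T3.2]
        · rw [p3]
          simp only [map_mul, map_inv, T2, T3.2]
      · have t1 := MR_fix h p1 k (Or.inl (by omega))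
        have t2 := MR_fix h hT k (Or.inl (by omega))
        rcases hg with rfl | rfl
        · rw [t1.1, t2.1]
        · rw [t1.2, t2.2]
    exact h2 hz
  refine ⟨μ * P * μ⁻¹, Subgroup.mul_mem _ (Subgroup.mul_mem _ m1' p1')
    (Subgroup.inv_mem _ m1'), ?_, ?_⟩
  · intro z hz
    rw [MulAut.mul_apply, MulAut.mul_apply, hTm',
      h1 _ (MR_map h le_rfl le_rfl (Subgroup.inv_mem _ m1) hz)]
  · have h3 : (P (ex a (i + 1)))⁻¹ * T (P (ex a (i + 1))) =
        (ex b i)⁻¹ * ex b (i + 1) * ex b i := by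
      rw [p4]
      simp only [map_mul, map_inv, T1, T2, T3.2]
      group
    rw [MulAut.mul_apply, MulAut.mul_apply, hμi, hTm', ← map_inv, ← map_mul, h3]
    simp only [map_mul, map_inv, m3.2]

theorem exists_Px (h : IsSurf a b) (i : ℕ) (hi : i + 1 < m) (T : MulAut G)
    (hT : T ∈ MR h (i + 1) (i + 2)) (T1 : T (ex a (i + 1)) = ex a (i + 1) * ex b (i + 1))
    (T2 : T (ex b (i + 1)) = ex b (i + 1)) (x : Finset ℕ × Finset ℕ) :
    ∃ P ∈ MR h 0 (i + 2), (∀ z ∈ Hd a b 0 (i + 1), T (P z) = P z) ∧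
      (P (ex a (i + 1)))⁻¹ * T (P (ex a (i + 1))) =
        (Wx a b x.1 x.2 0 (i + 1))⁻¹ * ex b (i + 1) * Wx a b x.1 x.2 0 (i + 1) := by
  by_cases hne : ∃ l, l < i + 1 ∧ l ∈ x.1 ∪ x.2
  · obtain ⟨μ, m1, m2⟩ := claimRx h x.1 x.2 (i + 1) (by omega) hne
    rw [Nat.add_sub_cancel] at m2
    rw [← m2]
    exact exists_Pmu h i hi T hT T1 T2 μ m1
  · refine ⟨1, Subgroup.one_mem _, fun z hz => ?_, ?_⟩
    · rw [MulAut.one_apply]
      exact MR_fix_Hd h (Or.inl le_rfl) hT hz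
    · rw [MulAut.one_apply, T1, Wx_triv x.1 x.2 0 (i + 1) fun l _ h1 => by
        have h3 : l ∉ x.1 ∪ x.2 := fun h4 => hne ⟨l, by omega, h4⟩
        rw [Finset.mem_union, not_or] at h3
        exact h3]
      group

/-- The recursion, for an arbitrary family of moves. -/
theorem Fam_step {h : IsSurf a b} (hK : KK h n K) {i t : ℕ} (hi : i + 1 < n) (hnm : n ≤ m)
    {ι : Type*} (I : Finset ι) (W : ι → G) (hW : ∀ e, W e ∈ Hd a b 0 (i + 1))
    (hI : ∀ e ∈ I, ∀ e' ∈ I, W e * (W e')⁻¹ ∈ GG hK (i + 1) hi.le → e = e')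
    (T : MulAut G) (hT : T ∈ MR h (i + 1) (i + 2))
    (hPe : ∀ e, ∃ P ∈ MR h 0 (i + 2), (∀ z ∈ Hd a b 0 (i + 1), T (P z) = P z) ∧
      (P (ex a (i + 1)))⁻¹ * T (P (ex a (i + 1))) = (W e)⁻¹ * ex b (i + 1) * W e)
    (hF : Fam h K (i + 1) t) : Fam h K (i + 2) (I.card * t) := by
  classical
  obtain ⟨s, s1, s2, s3⟩ := hF
  rw [Nat.add_sub_cancel] at s3
  choose P hP hP1 hP2 using hPe
  obtain ⟨R, hR, R1⟩ := rot h i (by omega)
  obtain ⟨S, hS, S1⟩ := slideS h i (by omega)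
  have hR' : R⁻¹ ∈ MR h 0 (i + 1) := Subgroup.inv_mem _ (MR_mono h (Nat.zero_le _) le_rfl hR)
  have R2 : R⁻¹ ((ex b i)⁻¹) = ex a i := inv_of_eq R1
  let Φ : ι × MulAut G → MulAut G := fun x => P x.1 * (x.2 * R⁻¹) * S
  have hup : ∀ {f : MulAut G}, f ∈ MR h 0 (i + 1) → f ∈ MR h 0 (i + 2) :=
    fun hf => MR_mono h le_rfl (by omega) hf
  have hval : ∀ e, ∀ f ∈ s, Φ (e, f) (ex a (i + 1)) =
      P e (f (ex a i)) * P e (ex a (i + 1)) := by
    intro e f hf
    have h1 := (MR_fix h (s2 f hf) (i + 1) (Or.inr le_rfl)).1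
    have h2 : R⁻¹ (ex a (i + 1)) = ex a (i + 1) := (MR_fix h hR' (i + 1) (Or.inr le_rfl)).1
    change (P e * (f * R⁻¹) * S) (ex a (i + 1)) = _
    rw [MulAut.mul_apply, MulAut.mul_apply, MulAut.mul_apply, S1]
    rw [map_mul, R2, h2, map_mul, h1, map_mul]
  have hmemR : ∀ e, ∀ f ∈ s, Φ (e, f) (ex a (i + 1)) ∈ Hd a b 0 n := by
    intro e f hf
    have h1 : Φ (e, f) ∈ MR h 0 (i + 2) := Subgroup.mul_mem _ (Subgroup.mul_mem _ (hP e)
      (hup (Subgroup.mul_mem _ (s2 f hf) hR'))) (MR_mono h (Nat.zero_le _) le_rfl hS)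
    exact MR_map h le_rfl (by omega) h1 (a_Hd (Nat.zero_le _) (by omega))
  have hder : ∀ e, ∀ f ∈ s, (Φ (e, f) (ex a (i + 1)))⁻¹ * T (Φ (e, f) (ex a (i + 1))) =
      (W e)⁻¹ * ex b (i + 1) * W e := by
    intro e f hf
    rw [hval e f hf, map_mul, hP1 e _ (MR_map h le_rfl le_rfl (s2 f hf)
      (a_Hd (Nat.zero_le _) (Nat.lt_succ_self i))), ← hP2 e]
    group
  have hTK : ∀ k ∈ K, T k ∈ K := hK.inv T (MR_mono h (Nat.zero_le _) (by omega) hT)
  have key : ∀ e ∈ I, ∀ f ∈ s, ∀ e' ∈ I,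
      ∀ f' ∈ s, Φ (e, f) (ex a (i + 1)) * (Φ (e', f') (ex a (i + 1)))⁻¹ ∈ K →
      e = e' ∧ f = f' := by
    intro e he f hf e' he' f' hf' h1
    set u := Φ (e, f) (ex a (i + 1)) with hu
    set u' := Φ (e', f') (ex a (i + 1)) with hu'
    have h2 := hTK _ h1
    rw [map_mul, map_inv] at h2
    have h3 : (u⁻¹ * T u) * (u'⁻¹ * T u')⁻¹ ∈ K := by
      have h4 := hK.conj u⁻¹ (Subgroup.inv_mem _ (hmemR e f hf)) _
        (K.mul_mem h2 (K.inv_mem h1))
      have h6 : u⁻¹ * (T u * (T u')⁻¹ * (u * u'⁻¹)⁻¹) * u⁻¹⁻¹ =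
          (u⁻¹ * T u) * (u'⁻¹ * T u')⁻¹ := by group
      rwa [h6] at h4
    rw [hder e f hf, hder e' f' hf'] at h3
    have h7 : W e * (W e')⁻¹ ∈ GG hK (i + 1) hi.le := by
      refine ⟨Subgroup.mul_mem _ (hW e) (Subgroup.inv_mem _ (hW e')), ?_⟩
      have h8 := hK.conj (W e) (Hd_mono le_rfl hi.le (hW e)) _ h3
      have h9 : W e * ((W e)⁻¹ * ex b (i + 1) * W e *
          ((W e')⁻¹ * ex b (i + 1) * W e')⁻¹) *
          (W e)⁻¹ = ex b (i + 1) * (W e * (W e')⁻¹) *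
          (ex b (i + 1))⁻¹ * (W e * (W e')⁻¹)⁻¹ := by group
      rwa [h9] at h8
    have hee : e = e' := hI e he e' he' h7
    subst hee
    refine ⟨rfl, ?_⟩
    have h8 : (P e)⁻¹ (u * u'⁻¹) ∈ K :=
      hK.inv _ (Subgroup.inv_mem _ (MR_mono h le_rfl (by omega) (hP e))) _ h1
    rw [hu, hu', hval e f hf, hval e f' hf', ← map_mul, ← map_mul, ← map_inv, ← map_mul,
      MulAut.inv_apply_self] at h8
    have h9 : f (ex a i) * ex a (i + 1) * (f' (ex a i) * ex a (i + 1))⁻¹ =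
        f (ex a i) * (f' (ex a i))⁻¹ := by group
    rw [h9] at h8
    exact s3 f hf f' hf' h8
  have hinj : Set.InjOn Φ (I ×ˢ s : Finset (ι × MulAut G)) := by
    rintro ⟨e, f⟩ h1 ⟨e', f'⟩ h2 h3
    rw [Finset.mem_coe, Finset.mem_product] at h1 h2
    have h4 := key e h1.1 f h1.2 e' h2.1 f' h2.2 (by
      rw [h3, mul_inv_cancel]
      exact K.one_mem)
    rw [h4.1, h4.2]
  refine ⟨(I ×ˢ s).image Φ, ?_, ?_, ?_⟩
  · rw [Finset.card_image_of_injOn hinj, Finset.card_product]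
    exact Nat.mul_le_mul_left _ s1
  · intro f hf
    obtain ⟨⟨e, f⟩, h1, rfl⟩ := Finset.mem_image.1 hf
    rw [Finset.mem_product] at h1
    exact Subgroup.mul_mem _ (Subgroup.mul_mem _ (hP e)
      (hup (Subgroup.mul_mem _ (s2 f h1.2) hR'))) (MR_mono h (Nat.zero_le _) le_rfl hS)
  · intro g hg g' hg' h5
    obtain ⟨⟨e, f⟩, h1, rfl⟩ := Finset.mem_image.1 hg
    obtain ⟨⟨e', f'⟩, h2, rfl⟩ := Finset.mem_image.1 hg'
    rw [Finset.mem_product] at h1 h2
    have h6 := key e h1.1 f h1.2 e' h2.1 f' h2.2 h5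
    rw [h6.1, h6.2]

/-- The recursion with all words. -/
theorem Fam_four {h : IsSurf a b} (hK : KK h n K) {i t : ℕ} (hi : i + 1 < n) (hnm : n ≤ m)
    (hne : ¬ ∀ g ∈ Hd a b 0 (i + 1), g ∈ GG hK (i + 1) hi.le) (hF : Fam h K (i + 1) t) :
    Fam h K (i + 2) (4 ^ (i + 1) * t) := by
  classical
  obtain ⟨T, hT, T1, T2⟩ := exists_B h (i + 1) (by omega)
  have h1 := Fam_step hK hi hnm
    ((Finset.range (i + 1)).powerset ×ˢ (Finset.range (i + 1)).powerset)
    (fun x => Wx a b x.1 x.2 0 (i + 1))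
    (fun x => by
      have := Wx_Hd (a := a) (b := b) x.1 x.2 0 (i + 1)
      rwa [Nat.zero_add] at this)
    (by
      rintro ⟨e, f⟩ h1 ⟨e', f'⟩ h2 h3
      rw [Finset.mem_product, Finset.mem_powerset, Finset.mem_powerset] at h1 h2
      by_contra hcon
      apply hne
      refine lemmaPx hK hi.le (by omega) e f e' f' ?_ h3
      by_contra h8
      push Not at h8
      apply hcon
      have h9 : e = e' := by
        ext l
        by_cases hl : l < i + 1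
        · exact (h8 l hl).1
        · constructor
          · intro h9; exact absurd (Finset.mem_range.1 (h1.1 h9)) hl
          · intro h9; exact absurd (Finset.mem_range.1 (h2.1 h9)) hl
      have h10 : f = f' := by
        ext l
        by_cases hl : l < i + 1
        · exact (h8 l hl).2
        · constructor
          · intro h9; exact absurd (Finset.mem_range.1 (h1.2 h9)) hl
          · intro h9; exact absurd (Finset.mem_range.1 (h2.2 h9)) hl
      rw [h9, h10])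
    T hT (fun x => exists_Px h i (by omega) T hT T1 T2 x) hF
  rwa [Finset.card_product, Finset.card_powerset, Finset.card_range, ← mul_pow] at h1

/-- No `b_l` is in `K`. -/
theorem b_notMem {h : IsSurf a b} (hK : KK h n K) (hn : 2 ≤ n) (hnm : n ≤ m)
    (hne : ∀ i (hi : i + 1 < n), ¬ ∀ g ∈ Hd a b 0 (i + 1), g ∈ GG hK (i + 1) hi.le)
    {l : ℕ} (hl : l < n) : ex b l ∉ K := by
  intro hb
  by_cases h0 : l = 0
  · subst h0
    apply hne 0 (by omega)
    apply GG_all hK (by omega) (by omega) (l := 0) (by omega)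
    refine ⟨b_Hd le_rfl (by omega), K.mul_mem (hK.conj _ (b_Hd (Nat.zero_le _) (by omega)) _ hb)
      (K.inv_mem hb)⟩
  · obtain ⟨i, rfl⟩ : ∃ i, l = i + 1 := ⟨l - 1, by omega⟩
    apply hne i hl
    intro g hg
    refine ⟨hg, ?_⟩
    have h1 := K.mul_mem hb (hK.conj g (Hd_mono le_rfl hl.le hg) _ (K.inv_mem hb))
    have h2 : ex b (i + 1) * (g * (ex b (i + 1))⁻¹ * g⁻¹) =
        ex b (i + 1) * g * (ex b (i + 1))⁻¹ * g⁻¹ := by group
    rwa [h2] at h1

theorem a_notMem {h : IsSurf a b} (hK : KK h n K) (hn : 2 ≤ n) (hnm : n ≤ m)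
    (hne : ∀ i (hi : i + 1 < n), ¬ ∀ g ∈ Hd a b 0 (i + 1), g ∈ GG hK (i + 1) hi.le)
    {l : ℕ} (hl : l < n) : ex a l ∉ K := by
  intro ha
  obtain ⟨μ, h1, h2⟩ := rot h l (by omega)
  have h3 := hK.inv μ (MR_mono h (Nat.zero_le _) (by omega) h1) _ ha
  rw [h2] at h3
  exact b_notMem hK hn hnm hne hl (by simpa using K.inv_mem h3)

/-- Three images of `a_0`. -/
theorem Fam_three {h : IsSurf a b} (hK : KK h n K) (hn : 2 ≤ n) (hnm : n ≤ m)
    (hne : ∀ i (hi : i + 1 < n), ¬ ∀ g ∈ Hd a b 0 (i + 1), g ∈ GG hK (i + 1) hi.le) :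
    Fam h K 1 3 := by
  classical
  obtain ⟨B, hB, B1, B2⟩ := exists_B h 0 (by omega)
  obtain ⟨R, hR, R1⟩ := rot h 0 (by omega)
  have hb := b_notMem hK hn hnm hne (l := 0) (by omega)
  have hinv : ∀ k ∈ K, B k ∈ K := hK.inv B (MR_mono h le_rfl (by omega) hB)
  have ha0 : ex a 0 ∈ Hd a b 0 n := a_Hd le_rfl (by omega)
  have hb0 : ex b 0 ∈ Hd a b 0 n := b_Hd le_rfl (by omega)
  -- the three classes are different
  have c1 : ex a 0 * (ex a 0 * ex b 0)⁻¹ ∉ K := by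
    intro h1
    have h2 := hK.conj (ex a 0)⁻¹ (Subgroup.inv_mem _ ha0) _ (K.inv_mem h1)
    have h3 : (ex a 0)⁻¹ * (ex a 0 * (ex a 0 * ex b 0)⁻¹)⁻¹ * (ex a 0)⁻¹⁻¹ = ex b 0 := by group
    rw [h3] at h2
    exact hb h2
  have c2 : ex a 0 * ((ex b 0)⁻¹)⁻¹ ∉ K := by
    intro h1
    have h2 := hinv _ h1
    simp only [map_mul, map_inv, B1, B2] at h2
    have h3 := K.mul_mem (K.inv_mem h1) h2
    have h4 : (ex a 0 * ((ex b 0)⁻¹)⁻¹)⁻¹ * (ex a 0 * ex b 0 * ((ex b 0)⁻¹)⁻¹) = ex b 0 := by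
      group
    rw [h4] at h3
    exact hb h3
  have c3 : ex a 0 * ex b 0 * ((ex b 0)⁻¹)⁻¹ ∉ K := by
    intro h1
    have h2 := hinv _ h1
    simp only [map_mul, map_inv, B1, B2] at h2
    have h3 := K.mul_mem (K.inv_mem h1) h2
    have h4 : (ex a 0 * ex b 0 * ((ex b 0)⁻¹)⁻¹)⁻¹ *
        (ex a 0 * ex b 0 * ex b 0 * ((ex b 0)⁻¹)⁻¹) = ex b 0 := by group
    rw [h4] at h3
    exact hb h3
  have inv_not : ∀ {u v : G}, u * v⁻¹ ∉ K → v * u⁻¹ ∉ K := by
    intro u v h1 h2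
    apply h1
    have h3 := K.inv_mem h2
    rwa [mul_inv_rev, inv_inv] at h3
  have k1 : (1 : MulAut G) (ex a 0) = ex a 0 := rfl
  have n1 : (1 : MulAut G) ≠ B := by
    intro h1
    apply c1
    rw [← B1, ← h1, k1, mul_inv_cancel]
    exact K.one_mem
  have n2 : (1 : MulAut G) ≠ R := by
    intro h1
    apply c2
    rw [← R1, ← h1, k1, mul_inv_cancel]
    exact K.one_mem
  have n3 : B ≠ R := by
    intro h1
    apply c3
    rw [← R1, ← h1, B1, mul_inv_cancel]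
    exact K.one_mem
  refine ⟨{1, B, R}, ?_, ?_, ?_⟩
  · rw [Finset.card_insert_of_notMem (by simp [n1, n2]), Finset.card_insert_of_notMem (by simp [n3]),
      Finset.card_singleton]
  · intro f hf
    simp only [Finset.mem_insert, Finset.mem_singleton] at hf
    rcases hf with rfl | rfl | rfl
    · exact Subgroup.one_mem _
    · exact hB
    · exact hR
  · intro f hf f' hf' h1
    simp only [Finset.mem_insert, Finset.mem_singleton] at hf hf'
    rw [Nat.sub_self] at h1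
    rcases hf with rfl | rfl | rfl <;> rcases hf' with rfl | rfl | rfl
    · rfl
    · rw [k1, B1] at h1
      exact absurd h1 c1
    · rw [k1, R1] at h1
      exact absurd h1 c2
    · rw [k1, B1] at h1
      exact absurd h1 (inv_not c1)
    · rfl
    · rw [R1, B1] at h1
      exact absurd h1 c3
    · rw [k1, R1] at h1
      exact absurd h1 (inv_not c2)
    · rw [R1, B1] at h1
      exact absurd h1 (inv_not c3)
    · rfl

theorem Fam_all4 {h : IsSurf a b} (hK : KK h n K) (hn : 2 ≤ n) (hnm : n ≤ m)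
    (hne : ∀ i (hi : i + 1 < n), ¬ ∀ g ∈ Hd a b 0 (i + 1), g ∈ GG hK (i + 1) hi.le) :
    ∀ i, i < n → Fam h K (i + 1) (3 * 4 ^ ((i + 1).choose 2)) := by
  intro i
  induction i with
  | zero =>
    intro _
    have h1 := Fam_three hK hn hnm hne
    simpa using h1
  | succ i ih =>
    intro hi
    have h1 := Fam_four hK hi hnm (hne i hi) (ih (by omega))
    have h2 : 4 ^ (i + 1) * (3 * 4 ^ (i + 1).choose 2) = 3 * 4 ^ (i + 1 + 1).choose 2 := by
      rw [Nat.choose_succ_succ' (i + 1) 1, Nat.choose_one_right, pow_add]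
      ring
    rwa [h2] at h1

end

end Pool.Agent.H.MP_59b15d_al.H62G
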