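import Mathlib
import Pool.Agent.H.MP_59b15d_al.h62g.Fm
import Pool.Agent.H.MP_59b15d_al.h95g.KN
import Pool.Agent.H.MP_59b15d_al.h73e.La
import Pool.Agent.H.MP_59b15d_al.h76r.Sd

set_option autoImplicit false
set_option linter.unusedSimpArgs false

/-!
# A mapping class moving only `b_{i+1}`, by `a_i`
-/

namespace Pool.Agent.H.MP_59b15d_al.H62G

open Pool.MP_59b15d_al.H24T Pool.MP_59b15d_al.H76R Pool.MP_59b15d_al.H73E
open Pool.MP_59b15d_al.H60G Pool.MP_59b15d_al.H95G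

section

variable {m : ℕ} {G : Type*} [Group G] {a b : Fin m → G}

theorem exists_Pu (h : IsSurf a b) (i : ℕ) (hi : i + 1 < m) {A : MulAut G}
    (hA : A ∈ MR h (i + 1) (i + 2)) (A1 : A (ex a (i + 1)) = ex a (i + 1))
    (A2 : A (ex b (i + 1)) = ex b (i + 1) * ex a (i + 1)) :
    ∃ M ∈ MR h i (i + 2), M (ex a (i + 1)) = ex a (i + 1) ∧
      M (ex b (i + 1)) = (ex a (i + 1))⁻¹ * ex a i * ex a (i + 1) * ex b (i + 1) ∧
      A * M = M * A := by
  obtain ⟨C, hC, C1, C2, C3, C4⟩ := exists_C h i hi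
  obtain ⟨B, hB, B1, B2⟩ := exists_B h (i + 1) hi
  obtain ⟨D, hD, D1, D2⟩ := exists_B h i (by omega)
  obtain ⟨μ, hμ, μ1⟩ := rot h i (by omega)
  have A3 := MR_fix h hA i (Or.inl (by omega))
  have B3 := MR_fix h hB i (Or.inl (by omega))
  have D3 := MR_fix h hD (i + 1) (Or.inr (by omega))
  have μ3 := MR_fix h hμ (i + 1) (Or.inr (by omega))
  have hm : ∀ {f : MulAut G}, f ∈ MR h (i + 1) (i + 2) → f ∈ MR h i (i + 2) :=
    fun hf => MR_mono h (by omega) le_rfl hf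
  have hm' : ∀ {f : MulAut G}, f ∈ MR h i (i + 1) → f ∈ MR h i (i + 2) :=
    fun hf => MR_mono h le_rfl (by omega) hf
  have nD1 : D⁻¹ (ex a i) = ex a i * (ex b i)⁻¹ := by
    apply inv_of_eq
    simp only [map_mul, map_inv, D1, D2]
    group
  have nD2 : D⁻¹ (ex b i) = ex b i := inv_of_eq D2
  have nD3 : D⁻¹ (ex a (i + 1)) = ex a (i + 1) := inv_of_eq D3.1
  have nD4 : D⁻¹ (ex b (i + 1)) = ex b (i + 1) := inv_of_eq D3.2
  have nA1 : A⁻¹ (ex a (i + 1)) = ex a (i + 1) := inv_of_eq A1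
  have nA2 : A⁻¹ (ex b (i + 1)) = ex b (i + 1) * (ex a (i + 1))⁻¹ := by
    apply inv_of_eq
    simp only [map_mul, map_inv, A1, A2]
    group
  have nA3 : A⁻¹ (ex a i) = ex a i := inv_of_eq A3.1
  have nA4 : A⁻¹ (ex b i) = ex b i := inv_of_eq A3.2
  have nB1 : B⁻¹ (ex a (i + 1)) = ex a (i + 1) * (ex b (i + 1))⁻¹ := by
    apply inv_of_eq
    simp only [map_mul, map_inv, B1, B2]
    group
  have nB2 : B⁻¹ (ex b (i + 1)) = ex b (i + 1) := inv_of_eq B2
  have nB3 : B⁻¹ (ex a i) = ex a i := inv_of_eq B3.1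
  have nB4 : B⁻¹ (ex b i) = ex b i := inv_of_eq B3.2
  -- the four values of `M₀`
  obtain ⟨M, hM, m1, m2, m3, m4⟩ : ∃ M ∈ MR h i (i + 2), M (ex a (i + 1)) = ex a (i + 1) ∧
      M (ex b (i + 1)) = (ex a (i + 1))⁻¹ * (ex b i)⁻¹ * ex a (i + 1) * ex b (i + 1) ∧
      A (M (ex a i)) = M (ex a i) ∧ A (M (ex b i)) = M (ex b i) := by
    refine ⟨B * A⁻¹ * A⁻¹ * B * (C * D⁻¹) * (B⁻¹ * A * A * B⁻¹) * A,
      Subgroup.mul_mem _ (Subgroup.mul_mem _ (Subgroup.mul_mem _ (Subgroup.mul_mem _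
        (Subgroup.mul_mem _ (Subgroup.mul_mem _ (hm hB) (Subgroup.inv_mem _ (hm hA)))
        (Subgroup.inv_mem _ (hm hA))) (hm hB))
        (Subgroup.mul_mem _ hC (Subgroup.inv_mem _ (hm' hD))))
        (Subgroup.mul_mem _ (Subgroup.mul_mem _ (Subgroup.mul_mem _
          (Subgroup.inv_mem _ (hm hB)) (hm hA)) (hm hA)) (Subgroup.inv_mem _ (hm hB))))
        (hm hA), ?_, ?_, ?_, ?_⟩
    · simp only [MulAut.mul_apply, map_mul, map_inv, A1, A2, A3.1, A3.2, B1, B2, B3.1, B3.2,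
        C1, C2, C3, C4, nA1, nA2, nA3, nA4, nB1, nB2, nB3, nB4, nD1, nD2, nD3, nD4]
      group
    · simp only [MulAut.mul_apply, map_mul, map_inv, A1, A2, A3.1, A3.2, B1, B2, B3.1, B3.2,
        C1, C2, C3, C4, nA1, nA2, nA3, nA4, nB1, nB2, nB3, nB4, nD1, nD2, nD3, nD4]
      group
    · simp only [MulAut.mul_apply, map_mul, map_inv, A1, A2, A3.1, A3.2, B1, B2, B3.1, B3.2,
        C1, C2, C3, C4, nA1, nA2, nA3, nA4, nB1, nB2, nB3, nB4, nD1, nD2, nD3, nD4]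
      group
    · simp only [MulAut.mul_apply, map_mul, map_inv, A1, A2, A3.1, A3.2, B1, B2, B3.1, B3.2,
        C1, C2, C3, C4, nA1, nA2, nA3, nA4, nB1, nB2, nB3, nB4, nD1, nD2, nD3, nD4]
      group
  have hMA : ∀ z, A (M z) = M (A z) := by
    intro z
    have h1 : A * M = M * A := by
      apply ext_ex h
      intro l hl
      rw [MulAut.mul_apply, MulAut.mul_apply, MulAut.mul_apply, MulAut.mul_apply]
      by_cases h2 : l = i
      · subst h2
        rw [m3, m4, A3.1, A3.2]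
        exact ⟨rfl, rfl⟩
      · by_cases h3 : l = i + 1
        · subst h3
          rw [m1, m2, A1, A2]
          simp only [map_mul, map_inv, A1, A2, A3.1, A3.2, m1, m2]
          refine ⟨trivial, ?_⟩
          group
        · have t1 := MR_fix h hM l (by omega)
          have t2 := MR_fix h hA l (by omega)
          rw [t1.1, t1.2, t2.1, t2.2, t1.1, t1.2]
          exact ⟨rfl, rfl⟩
    rw [← MulAut.mul_apply, h1, MulAut.mul_apply]
  have hμA : A * μ = μ * A := by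
    apply ext_ex h
    intro l hl
    rw [MulAut.mul_apply, MulAut.mul_apply, MulAut.mul_apply, MulAut.mul_apply]
    by_cases h2 : l < i + 1
    · have t2 := MR_fix h hA l (by omega)
      have c1 : A (μ (ex a l)) = μ (ex a l) :=
        MR_fix_Hd (lo' := 0) (hi' := i + 1) h (Or.inl le_rfl) hA
          (MR_map h (Nat.zero_le _) le_rfl hμ (a_Hd (Nat.zero_le _) h2))
      have c2 : A (μ (ex b l)) = μ (ex b l) :=
        MR_fix_Hd (lo' := 0) (hi' := i + 1) h (Or.inl le_rfl) hA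
          (MR_map h (Nat.zero_le _) le_rfl hμ (b_Hd (Nat.zero_le _) h2))
      rw [c1, c2, t2.1, t2.2]
      exact ⟨rfl, rfl⟩
    · by_cases h3 : l = i + 1
      · subst h3
        rw [μ3.1, μ3.2, A1, A2, map_mul, μ3.1, μ3.2]
        exact ⟨rfl, rfl⟩
      · have t1 := MR_fix h hμ l (by omega)
        have t2 := MR_fix h hA l (by omega)
        rw [t1.1, t1.2, t2.1, t2.2, t1.1, t1.2]
        exact ⟨rfl, rfl⟩
  have nμ1 : μ⁻¹ ((ex b i)⁻¹) = ex a i := inv_of_eq μ1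
  have nμ3 : μ⁻¹ (ex a (i + 1)) = ex a (i + 1) := inv_of_eq μ3.1
  have nμ4 : μ⁻¹ (ex b (i + 1)) = ex b (i + 1) := inv_of_eq μ3.2
  refine ⟨μ⁻¹ * M * μ, Subgroup.mul_mem _ (Subgroup.mul_mem _ (Subgroup.inv_mem _ (hm' hμ)) hM)
    (hm' hμ), ?_, ?_, ?_⟩
  · rw [MulAut.mul_apply, MulAut.mul_apply, μ3.1, m1, nμ3]
  · rw [MulAut.mul_apply, MulAut.mul_apply, μ3.2, m2, map_mul, map_mul, map_mul, nμ1, map_inv,
      nμ3, nμ4]
  · have h1 : A * M = M * A := by
      ext z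
      exact hMA z
    have h2 : A * μ⁻¹ = μ⁻¹ * A := by
      rw [eq_inv_mul_iff_mul_eq, ← mul_assoc, ← hμA, mul_assoc, mul_inv_cancel, mul_one]
    calc A * (μ⁻¹ * M * μ) = A * μ⁻¹ * M * μ := by group
      _ = μ⁻¹ * (A * M) * μ := by rw [h2]; group
      _ = μ⁻¹ * M * (A * μ) := by rw [h1]; group
      _ = μ⁻¹ * M * μ * A := by rw [hμA]; group

end

end Pool.Agent.H.MP_59b15d_al.H62G
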