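import Mathlib
import Pool.Agent.H.MP_59b15d_al.h62g.Pu
import Pool.Agent.H.MP_59b15d_al.h95g.Ch
import Pool.Agent.H.MP_59b15d_al.h73e.La
import Pool.Agent.H.MP_59b15d_al.h76r.Sd

set_option autoImplicit false

/-!
# The count with two families
-/

namespace Pool.Agent.H.MP_59b15d_al.H62G

open Pool.MP_59b15d_al.H24T Pool.MP_59b15d_al.H76R Pool.MP_59b15d_al.H73E
open Pool.MP_59b15d_al.H60G Pool.MP_59b15d_al.H95G

section

variable {m : ℕ} {G : Type*} [Group G] {a b : Fin m → G}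

/-- A family of automorphisms of the first `j + 1` handles which fix `a_j`, commute with the twist
along `a_j` and carry `b_j` to different classes modulo `K`. -/
def Sec (h : IsSurf a b) (K : Subgroup G) (j t : ℕ) : Prop :=
  ∃ s : Finset (MulAut G), t ≤ s.card ∧ (∀ f ∈ s, f ∈ MR h 0 (j + 1)) ∧
    (∀ f ∈ s, f (ex a j) = ex a j) ∧
    (∀ f ∈ s, ∀ A ∈ MR h j (j + 1), A (ex a j) = ex a j → A (ex b j) = ex b j * ex a j →
      A * f = f * A) ∧
    ∀ f ∈ s, ∀ f' ∈ s, f (ex b j) * (f' (ex b j))⁻¹ ∈ K → f = f'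

theorem eq_of_handle (h : IsSurf a b) {j : ℕ} {A A' : MulAut G} (hA : A ∈ MR h j (j + 1))
    (hA' : A' ∈ MR h j (j + 1)) (h1 : A (ex a j) = A' (ex a j)) (h2 : A (ex b j) = A' (ex b j)) :
    A = A' := by
  apply ext_ex h
  intro l hl
  by_cases hlj : l = j
  · subst hlj
    exact ⟨h1, h2⟩
  · have t1 := MR_fix h hA l (by omega)
    have t2 := MR_fix h hA' l (by omega)
    rw [t1.1, t1.2, t2.1, t2.2]
    exact ⟨rfl, rfl⟩

variable {n : ℕ} {K : Subgroup G}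

theorem Sec_two {h : IsSurf a b} (hK : KK h n K) (hn : 2 ≤ n) (hnm : n ≤ m)
    (hne : ∀ i (hi : i + 1 < n), ¬ ∀ g ∈ Hd a b 0 (i + 1), g ∈ GG hK (i + 1) hi.le) :
    Sec h K 0 2 := by
  classical
  obtain ⟨A, hA, A1, A2⟩ := exists_A h 0 (by omega)
  have ha := a_notMem hK hn hnm hne (l := 0) (by omega)
  have hb0 : ex b 0 ∈ Hd a b 0 n := b_Hd le_rfl (by omega)
  have k1 : (1 : MulAut G) (ex b 0) = ex b 0 := rfl
  have c1 : ex b 0 * (ex b 0 * ex a 0)⁻¹ ∉ K := by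
    intro h1
    have h2 := hK.conj (ex b 0)⁻¹ (Subgroup.inv_mem _ hb0) _ (K.inv_mem h1)
    have h3 : (ex b 0)⁻¹ * (ex b 0 * (ex b 0 * ex a 0)⁻¹)⁻¹ * (ex b 0)⁻¹⁻¹ = ex a 0 := by group
    rw [h3] at h2
    exact ha h2
  have n1 : (1 : MulAut G) ≠ A := by
    intro h1
    apply c1
    rw [← A2, ← h1, k1, mul_inv_cancel]
    exact K.one_mem
  refine ⟨{1, A}, ?_, ?_, ?_, ?_, ?_⟩
  · rw [Finset.card_insert_of_notMem (by simp [n1]), Finset.card_singleton]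
  · intro f hf
    simp only [Finset.mem_insert, Finset.mem_singleton] at hf
    rcases hf with rfl | rfl
    · exact Subgroup.one_mem _
    · exact hA
  · intro f hf
    simp only [Finset.mem_insert, Finset.mem_singleton] at hf
    rcases hf with rfl | rfl
    · rfl
    · exact A1
  · intro f hf A' hA' h1 h2
    simp only [Finset.mem_insert, Finset.mem_singleton] at hf
    rcases hf with rfl | rfl
    · rw [mul_one, one_mul]
    · rw [eq_of_handle h hA' hA (h1.trans A1.symm) (h2.trans A2.symm)]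
  · intro f hf f' hf' h1
    simp only [Finset.mem_insert, Finset.mem_singleton] at hf hf'
    rcases hf with rfl | rfl <;> rcases hf' with rfl | rfl
    · rfl
    · rw [k1, A2] at h1
      exact absurd h1 c1
    · rw [k1, A2] at h1
      have h3 := K.inv_mem h1
      rw [mul_inv_rev, inv_inv] at h3
      exact absurd h3 c1
    · rfl

/-- Twists of disjoint groups of handles commute. -/
theorem MR_comm' (h : IsSurf a b) {j k : ℕ} (hjk : j ≤ k) {T μ : MulAut G}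
    (hT : T ∈ MR h j k) (hμ : μ ∈ MR h 0 j) : T * μ = μ * T := by
  ext z
  exact MR_comm h hjk hT hμ z

theorem Sec_of_Fam {h : IsSurf a b} (hK : KK h n K) (hn : 2 ≤ n) (hnm : n ≤ m)
    (hne : ∀ i (hi : i + 1 < n), ¬ ∀ g ∈ Hd a b 0 (i + 1), g ∈ GG hK (i + 1) hi.le)
    {i t : ℕ} (hi : i + 1 < n) (hF : Fam h K (i + 1) t) : Sec h K (i + 1) (2 * t) := by
  classical
  obtain ⟨s, s1, s2, s3⟩ := hF
  rw [Nat.add_sub_cancel] at s3
  obtain ⟨A, hA, A1, A2⟩ := exists_A h (i + 1) (by omega)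
  obtain ⟨B, hB, B1, B2⟩ := exists_B h (i + 1) (by omega)
  obtain ⟨M, hM, M1, M2, M3⟩ := exists_Pu h i (by omega) hA A1 A2
  have hb := b_notMem hK hn hnm hne hi
  have hup : ∀ {f : MulAut G}, f ∈ MR h 0 (i + 1) → f ∈ MR h 0 (i + 1 + 1) :=
    fun hf => MR_mono h le_rfl (by omega) hf
  have hA' : A ∈ MR h 0 (i + 1 + 1) := MR_mono h (Nat.zero_le _) le_rfl hA
  have hM' : M ∈ MR h 0 (i + 1 + 1) := MR_mono h (Nat.zero_le _) le_rfl hM
  let Φ : Bool × MulAut G → MulAut G := fun x => (if x.1 then A else 1) * (x.2 * M * x.2⁻¹)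
  have hAf : ∀ f ∈ s, A * f = f * A := fun f hf => MR_comm' h (by omega) hA (s2 f hf)
  have hfx : ∀ f ∈ s, f (ex a (i + 1)) = ex a (i + 1) ∧ f (ex b (i + 1)) = ex b (i + 1) :=
    fun f hf => MR_fix h (s2 f hf) (i + 1) (Or.inr le_rfl)
  have hfi : ∀ f ∈ s, f⁻¹ (ex a (i + 1)) = ex a (i + 1) ∧ f⁻¹ (ex b (i + 1)) = ex b (i + 1) :=
    fun f hf => ⟨inv_of_eq (hfx f hf).1, inv_of_eq (hfx f hf).2⟩
  have hFm : ∀ f ∈ s, f (ex a i) ∈ Hd a b 0 (i + 1) := fun f hf =>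
    MR_map h le_rfl le_rfl (s2 f hf) (a_Hd (Nat.zero_le _) (Nat.lt_succ_self i))
  have hva : ∀ k, ∀ f ∈ s, Φ (k, f) (ex a (i + 1)) = ex a (i + 1) := by
    intro k f hf
    change ((if k then A else 1) * (f * M * f⁻¹)) (ex a (i + 1)) = _
    rw [MulAut.mul_apply, MulAut.mul_apply, MulAut.mul_apply, (hfi f hf).1, M1, (hfx f hf).1]
    cases k
    · rfl
    · exact A1
  have hvb : ∀ f ∈ s, (f * M * f⁻¹) (ex b (i + 1)) =
      (ex a (i + 1))⁻¹ * f (ex a i) * ex a (i + 1) * ex b (i + 1) := by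
    intro f hf
    rw [MulAut.mul_apply, MulAut.mul_apply, (hfi f hf).2, M2]
    simp only [map_mul, map_inv, (hfx f hf).1, (hfx f hf).2]
  have hvb0 : ∀ f ∈ s, Φ (false, f) (ex b (i + 1)) =
      (ex a (i + 1))⁻¹ * f (ex a i) * ex a (i + 1) * ex b (i + 1) := by
    intro f hf
    change ((1 : MulAut G) * (f * M * f⁻¹)) (ex b (i + 1)) = _
    rw [one_mul, hvb f hf]
  have hvb1 : ∀ f ∈ s, Φ (true, f) (ex b (i + 1)) =
      (ex a (i + 1))⁻¹ * f (ex a i) * ex a (i + 1) * (ex b (i + 1) * ex a (i + 1)) := by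
    intro f hf
    change (A * (f * M * f⁻¹)) (ex b (i + 1)) = _
    rw [MulAut.mul_apply, hvb f hf]
    simp only [map_mul, map_inv, A1, A2, MR_fix_Hd (lo' := 0) (hi' := i + 1) h (Or.inl le_rfl) hA
      (hFm f hf)]
  have hx : ex a (i + 1) ∈ Hd a b 0 n := a_Hd (Nat.zero_le _) hi
  have hBK : ∀ k ∈ K, B k ∈ K := hK.inv B (MR_mono h (Nat.zero_le _) (by omega) hB)
  -- the mixed case
  have hmix : ∀ f ∈ s, ∀ f' ∈ s,
      Φ (true, f) (ex b (i + 1)) * (Φ (false, f') (ex b (i + 1)))⁻¹ ∉ K := by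
    intro f hf f' hf' h1
    rw [hvb0 f' hf', hvb1 f hf] at h1
    have h2 := hK.conj _ hx _ h1
    set F := f (ex a i) with hFd
    set F' := f' (ex a i) with hFd'
    set x := ex a (i + 1) with hxd
    set y := ex b (i + 1) with hyd
    have e1 : x * (x⁻¹ * F * x * (y * x) * (x⁻¹ * F' * x * y)⁻¹) * x⁻¹ =
        F * x * y * x * y⁻¹ * x⁻¹ * F'⁻¹ := by group
    rw [e1] at h2
    have h3 := hBK _ h2
    have BF : B F = F := MR_fix_Hd (lo' := 0) (hi' := i + 1) h (Or.inl le_rfl) hB (hFm f hf)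
    have BF' : B F' = F' := MR_fix_Hd (lo' := 0) (hi' := i + 1) h (Or.inl le_rfl) hB (hFm f' hf')
    simp only [map_mul, map_inv, B1, B2, BF, BF'] at h3
    have h4 := K.mul_mem (K.inv_mem h2) h3
    have hz : F' * x * y * x⁻¹ ∈ Hd a b 0 n :=
      Subgroup.mul_mem _ (Subgroup.mul_mem _ (Subgroup.mul_mem _
        (Hd_mono le_rfl hi.le (hFm f' hf')) hx) (b_Hd (Nat.zero_le _) hi)) (Subgroup.inv_mem _ hx)
    have h5 := hK.conj _ (Subgroup.inv_mem _ hz) _ h4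
    have e2 : (F' * x * y * x⁻¹)⁻¹ * ((F * x * y * x * y⁻¹ * x⁻¹ * F'⁻¹)⁻¹ *
        (F * (x * y) * y * (x * y) * y⁻¹ * (x * y)⁻¹ * F'⁻¹)) * (F' * x * y * x⁻¹)⁻¹⁻¹ = y := by
      group
    rw [e2] at h5
    exact hb h5
  have key : ∀ k, ∀ f ∈ s, ∀ k', ∀ f' ∈ s,
      Φ (k, f) (ex b (i + 1)) * (Φ (k', f') (ex b (i + 1)))⁻¹ ∈ K → k = k' ∧ f = f' := by
    intro k f hf k' f' hf' h1
    have hsame : ∀ w : G, (ex a (i + 1))⁻¹ * f (ex a i) * ex a (i + 1) * w *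
        ((ex a (i + 1))⁻¹ * f' (ex a i) * ex a (i + 1) * w)⁻¹ ∈ K → f = f' := by
      intro w h2
      have h3 := hK.conj _ hx _ h2
      have e1 : ex a (i + 1) * ((ex a (i + 1))⁻¹ * f (ex a i) * ex a (i + 1) * w *
          ((ex a (i + 1))⁻¹ * f' (ex a i) * ex a (i + 1) * w)⁻¹) * (ex a (i + 1))⁻¹ =
          f (ex a i) * (f' (ex a i))⁻¹ := by group
      rw [e1] at h3
      exact s3 f hf f' hf' h3
    cases k <;> cases k'
    · rw [hvb0 f hf, hvb0 f' hf'] at h1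
      exact ⟨rfl, hsame _ h1⟩
    · have h2 := K.inv_mem h1
      rw [mul_inv_rev, inv_inv] at h2
      exact absurd h2 (hmix f' hf' f hf)
    · exact absurd h1 (hmix f hf f' hf')
    · rw [hvb1 f hf, hvb1 f' hf'] at h1
      exact ⟨rfl, hsame _ h1⟩
  have hinj : Set.InjOn Φ ((Finset.univ : Finset Bool) ×ˢ s : Finset (Bool × MulAut G)) := by
    rintro ⟨k, f⟩ h1 ⟨k', f'⟩ h2 h3
    rw [Finset.mem_coe, Finset.mem_product] at h1 h2
    have h4 := key k f h1.2 k' f' h2.2 (by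
      rw [h3, mul_inv_cancel]
      exact K.one_mem)
    rw [h4.1, h4.2]
  refine ⟨((Finset.univ : Finset Bool) ×ˢ s).image Φ, ?_, ?_, ?_, ?_, ?_⟩
  · rw [Finset.card_image_of_injOn hinj, Finset.card_product, Finset.card_univ, Fintype.card_bool]
    exact Nat.mul_le_mul_left _ s1
  · intro f hf
    obtain ⟨⟨k, f⟩, h1, rfl⟩ := Finset.mem_image.1 hf
    rw [Finset.mem_product] at h1
    have h2 : f * M * f⁻¹ ∈ MR h 0 (i + 1 + 1) := Subgroup.mul_mem _ (Subgroup.mul_mem _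
      (hup (s2 f h1.2)) hM') (Subgroup.inv_mem _ (hup (s2 f h1.2)))
    cases k
    · exact Subgroup.mul_mem _ (Subgroup.one_mem _) h2
    · exact Subgroup.mul_mem _ hA' h2
  · intro f hf
    obtain ⟨⟨k, f⟩, h1, rfl⟩ := Finset.mem_image.1 hf
    rw [Finset.mem_product] at h1
    exact hva k f h1.2
  · intro f hf A' hA2 h2 h3
    obtain ⟨⟨k, f⟩, h1, rfl⟩ := Finset.mem_image.1 hf
    rw [Finset.mem_product] at h1
    rw [eq_of_handle h hA2 hA (h2.trans A1.symm) (h3.trans A2.symm)]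
    have c1 : Commute A f := hAf f h1.2
    have c2 : Commute A M := M3
    have c3 : Commute A (f * M * f⁻¹) := (c1.mul_right c2).mul_right c1.inv_right
    have c4 : Commute A ((if k then A else 1) * (f * M * f⁻¹)) := by
      refine Commute.mul_right ?_ c3
      cases k
      · exact Commute.one_right A
      · exact Commute.refl A
    exact c4
  · intro g hg g' hg' h5
    obtain ⟨⟨k, f⟩, h1, rfl⟩ := Finset.mem_image.1 hg
    obtain ⟨⟨k', f'⟩, h2, rfl⟩ := Finset.mem_image.1 hg'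
    rw [Finset.mem_product] at h1 h2
    have h6 := key k f h1.2 k' f' h2.2 h5
    rw [h6.1, h6.2]

end

section

variable {n : ℕ} {G : Type*} [Group G] {a b : Fin (n + 1) → G} {h : IsSurf a b}
  {N : Subgroup (MulAut G)}

/-- Products of two families. -/
theorem mul_dist (hN : ∀ f ∈ MMs h, ∀ x ∈ N, f * x * f⁻¹ ∈ N) {s u : Finset (MulAut G)} {x : G}
    (hx : x ∈ Hd a b 0 n) (s2 : ∀ f ∈ s, f ∈ MR h 0 n) (sx : ∀ f ∈ s, f x = x)
    (s3 : ∀ f ∈ s, ∀ f' ∈ s, f⁻¹ * f' ∈ N → f = f') (u2 : ∀ f ∈ u, f ∈ MR h 0 n)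
    (u3 : ∀ f ∈ u, ∀ f' ∈ u, f x * (f' x)⁻¹ ∈ (Kr h N).map (jR a b) → f = f') :
    ∃ w : Finset (MulAut G), w.card = u.card * s.card ∧
      (∀ f ∈ w, ∃ p ∈ u, ∃ q ∈ s, f = p * q) ∧ ∀ f ∈ w, ∀ f' ∈ w, f⁻¹ * f' ∈ N → f = f' := by
  classical
  have hK := KK_of hN
  have key : ∀ f ∈ u, ∀ g ∈ s, ∀ f' ∈ u, ∀ g' ∈ s, (f * g)⁻¹ * (f' * g') ∈ N →
      f = f' ∧ g = g' := by
    intro f hf g hg f' hf' g' hg' hν
    have hν2 : (f * g)⁻¹ * (f' * g') ∈ MR h 0 n :=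
      Subgroup.mul_mem _ (Subgroup.inv_mem _ (Subgroup.mul_mem _ (u2 f hf) (s2 g hg)))
        (Subgroup.mul_mem _ (u2 f' hf') (s2 g' hg'))
    have h1 := N_move hN hν hν2 hx
    have h2 := hK.inv (f * g) (Subgroup.mul_mem _ (u2 f hf) (s2 g hg)) _ h1
    have h3 : (f * g) (x⁻¹ * ((f * g)⁻¹ * (f' * g')) x) = (f x)⁻¹ * f' x := by
      have e1 : (f * g) (((f * g)⁻¹ * (f' * g')) x) = (f' * g') x := by
        rw [MulAut.mul_apply _ (f * g)⁻¹, MulAut.apply_inv_self]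
      rw [map_mul, map_inv, e1, MulAut.mul_apply, MulAut.mul_apply, sx g hg, sx g' hg']
    rw [h3] at h2
    have h4 := hK.conj (f x) (MR_map h le_rfl le_rfl (u2 f hf) hx) _ (Subgroup.inv_mem _ h2)
    have h5 : f x * ((f x)⁻¹ * f' x)⁻¹ * (f x)⁻¹ = f x * (f' x)⁻¹ := by group
    rw [h5] at h4
    have h6 := u3 f hf f' hf' h4
    subst h6
    refine ⟨rfl, s3 g hg g' hg' ?_⟩
    have h7 : (f * g)⁻¹ * (f * g') = g⁻¹ * g' := by group
    rwa [h7] at hν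
  have hinj : Set.InjOn (fun x : MulAut G × MulAut G => x.1 * x.2)
      (u ×ˢ s : Finset (MulAut G × MulAut G)) := by
    rintro ⟨f, g⟩ h1 ⟨f', g'⟩ h2 h3
    rw [Finset.mem_coe, Finset.mem_product] at h1 h2
    have h4 := key f h1.1 g h1.2 f' h2.1 g' h2.2 (by
      change f * g = f' * g' at h3
      rw [h3, inv_mul_cancel]
      exact N.one_mem)
    rw [h4.1, h4.2]
  refine ⟨(u ×ˢ s).image (fun x => x.1 * x.2), ?_, ?_, ?_⟩
  · rw [Finset.card_image_of_injOn hinj, Finset.card_product]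
  · intro f hf
    obtain ⟨⟨e, f⟩, h1, rfl⟩ := Finset.mem_image.1 hf
    rw [Finset.mem_product] at h1
    exact ⟨e, h1.1, f, h1.2, rfl⟩
  · intro g hg g' hg' h5
    obtain ⟨⟨e, f⟩, h1, rfl⟩ := Finset.mem_image.1 hg
    obtain ⟨⟨e', f'⟩, h2, rfl⟩ := Finset.mem_image.1 hg'
    rw [Finset.mem_product] at h1 h2
    have h6 := key e h1.1 f h1.2 e' h2.1 f' h2.2 h5
    rw [h6.1, h6.2]

theorem Big_step (hN : ∀ f ∈ MMs h, ∀ x ∈ N, f * x * f⁻¹ ∈ N) {j c t t' : ℕ} (hj : j + 1 ≤ n)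
    (hB : Big h N j c) (hS : Sec h ((Kr h N).map (jR a b)) j t')
    (hF : Fam h ((Kr h N).map (jR a b)) (j + 1) t) : Big h N (j + 1) (t * (t' * c)) := by
  obtain ⟨s, s1, s2, s3⟩ := hB
  obtain ⟨v, v1, v2, va, -, v3⟩ := hS
  obtain ⟨u, u1, u2, u3⟩ := hF
  rw [Nat.add_sub_cancel] at u3
  have hin : ∀ {w : MulAut G}, w ∈ MR h 0 (j + 1) → w ∈ MR h 0 n :=
    fun hw => MR_mono h le_rfl hj hw
  have hup : ∀ {w : MulAut G}, w ∈ MR h 0 j → w ∈ MR h 0 (j + 1) :=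
    fun hw => MR_mono h le_rfl (by omega) hw
  obtain ⟨w, w1, w2, w3⟩ := mul_dist hN (b_Hd (Nat.zero_le j) (by omega))
    (fun f hf => hin (hup (s2 f hf))) (fun f hf => (MR_fix h (s2 f hf) j (Or.inr le_rfl)).2) s3
    (fun f hf => hin (v2 f hf)) v3
  have hw2 : ∀ f ∈ w, f ∈ MR h 0 (j + 1) := by
    intro f hf
    obtain ⟨p, hp, q, hq, rfl⟩ := w2 f hf
    exact Subgroup.mul_mem _ (v2 p hp) (hup (s2 q hq))
  have hwa : ∀ f ∈ w, f (ex a j) = ex a j := by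
    intro f hf
    obtain ⟨p, hp, q, hq, rfl⟩ := w2 f hf
    rw [MulAut.mul_apply, (MR_fix h (s2 q hq) j (Or.inr le_rfl)).1, va p hp]
  obtain ⟨z, z1, z2, z3⟩ := mul_dist hN (a_Hd (Nat.zero_le j) (by omega))
    (fun f hf => hin (hw2 f hf)) hwa w3 (fun f hf => hin (u2 f hf)) u3
  refine ⟨z, ?_, ?_, z3⟩
  · rw [z1, w1]
    exact Nat.mul_le_mul u1 (Nat.mul_le_mul v1 s1)
  · intro f hf
    obtain ⟨p, hp, q, hq, rfl⟩ := z2 f hf
    exact Subgroup.mul_mem _ (u2 p hp) (hw2 q hq)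

/-- The number of the second family. -/
theorem Sec_all (hN : ∀ f ∈ MMs h, ∀ x ∈ N, f * x * f⁻¹ ∈ N) (hn : 2 ≤ n)
    (hne : ∀ i (hi : i + 1 < n), ¬ ∀ g ∈ Hd a b 0 (i + 1), g ∈ GG (KK_of hN) (i + 1) hi.le)
    {i : ℕ} (hi : i + 1 < n) :
    Sec h ((Kr h N).map (jR a b)) (i + 1) (6 * 4 ^ ((i + 1).choose 2)) := by
  have h1 := Sec_of_Fam (KK_of hN) hn (Nat.le_succ n) hne hi
    (Fam_all4 (KK_of hN) hn (Nat.le_succ n) hne i (by omega))
  rwa [← mul_assoc] at h1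

theorem Big_all2 (hN : ∀ f ∈ MMs h, ∀ x ∈ N, f * x * f⁻¹ ∈ N) (hn : 2 ≤ n)
    (hne : ∀ i (hi : i + 1 < n), ¬ ∀ g ∈ Hd a b 0 (i + 1), g ∈ GG (KK_of hN) (i + 1) hi.le) :
    ∀ j, j + 1 ≤ n → Big h N (j + 1) (6 * 18 ^ j * 4 ^ ((j + 2).choose 3 + (j + 1).choose 3)) := by
  intro j
  induction j with
  | zero =>
    intro _
    have h1 := Big_step hN (j := 0) (by omega) (Big_one 0)
      (Sec_two (KK_of hN) hn (Nat.le_succ n) hne)
      (Fam_three (KK_of hN) hn (Nat.le_succ n) hne)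
    have h2 : 3 * (2 * 1) = 6 * 18 ^ 0 * 4 ^ ((0 + 2).choose 3 + (0 + 1).choose 3) := by decide
    rwa [h2] at h1
  | succ j ih =>
    intro hj
    have h1 := Big_step hN hj (ih (by omega)) (Sec_all hN hn hne hj)
      (Fam_all4 (KK_of hN) hn (Nat.le_succ n) hne (j + 1) hj)
    have h2 : 3 * 4 ^ ((j + 1 + 1).choose 2) * (6 * 4 ^ ((j + 1).choose 2) *
        (6 * 18 ^ j * 4 ^ ((j + 2).choose 3 + (j + 1).choose 3))) =
        6 * 18 ^ (j + 1) * 4 ^ ((j + 1 + 2).choose 3 + (j + 1 + 1).choose 3) := by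
      rw [Nat.choose_succ_succ' (j + 2) 2, Nat.choose_succ_succ' (j + 1) 2]
      ring
    rwa [h2] at h1

end

end Pool.Agent.H.MP_59b15d_al.H62G
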