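import Mathlib
import Pool.Agent.H.MP_59b15d_al.h62g.Bg
import Pool.Agent.H.MP_59b15d_al.h73e.La
import Pool.Agent.H.MP_59b15d_al.h76r.Sd

set_option autoImplicit false

/-!
# The last handle of the closed surface
-/

namespace Pool.Agent.H.MP_59b15d_al.H62G

open Pool.MP_59b15d_al.H24T Pool.MP_59b15d_al.H76R Pool.MP_59b15d_al.H73E
open Pool.MP_59b15d_al.H60G Pool.MP_59b15d_al.H95G

/-- Elements of the form `w' ν w⁻¹` commute modulo `N` with the elements which commute with `w` and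
`w'`. -/
theorem rel_comm {P : Type*} [Group P] {N H : Subgroup P}
    (hN : ∀ f ∈ H, ∀ x ∈ N, f * x * f⁻¹ ∈ N) {w w' T d ν : P} (hw' : w' ∈ H) (hT : T ∈ H)
    (hν : ν ∈ N) (hd : d = w' * ν * w⁻¹) (c : T * w = w * T) (c' : T * w' = w' * T) :
    d * T * d⁻¹ * T⁻¹ ∈ N := by
  have e1 : w⁻¹ * T * w = T := by
    rw [mul_assoc, c, ← mul_assoc, inv_mul_cancel, one_mul]
  have e2 : w'⁻¹ * T⁻¹ = T⁻¹ * w'⁻¹ := by
    rw [← mul_inv_rev, c', mul_inv_rev]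
  have h1 : d * T * d⁻¹ * T⁻¹ = w' * (ν * (T * ν⁻¹ * T⁻¹)) * w'⁻¹ := by
    rw [hd]
    calc w' * ν * w⁻¹ * T * (w' * ν * w⁻¹)⁻¹ * T⁻¹ =
        w' * ν * (w⁻¹ * T * w) * ν⁻¹ * (w'⁻¹ * T⁻¹) := by group
      _ = w' * (ν * (T * ν⁻¹ * T⁻¹)) * w'⁻¹ := by rw [e1, e2]; group
  rw [h1]
  exact hN _ hw' _ (N.mul_mem hν (hN _ hT _ (N.inv_mem hν)))

theorem card_le_relIndex {P : Type*} [Group P] {N H : Subgroup P} {s : Finset P}
    (s2 : ∀ f ∈ s, f ∈ H) (s3 : ∀ f ∈ s, ∀ f' ∈ s, f⁻¹ * f' ∈ N → f = f')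
    (hf : N.relIndex H ≠ 0) : s.card ≤ N.relIndex H := by
  classical
  have hfin : (N.subgroupOf H).index ≠ 0 := hf
  have hfi : (N.subgroupOf H).FiniteIndex := ⟨hfin⟩
  have hF : Finite (H ⧸ N.subgroupOf H) := Subgroup.finite_quotient_of_finiteIndex
  let φ : s → H ⧸ N.subgroupOf H := fun f => QuotientGroup.mk ⟨f.1, s2 f.1 f.2⟩
  have hφ : Function.Injective φ := by
    intro f f' hff
    have h1 := QuotientGroup.eq.1 hff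
    rw [Subgroup.mem_subgroupOf] at h1
    exact Subtype.ext (s3 _ f.2 _ f'.2 h1)
  have h2 := Nat.card_le_card_of_injective φ hφ
  rw [Nat.card_eq_fintype_card, Fintype.card_coe] at h2
  exact h2

section

variable {m : ℕ} {G : Type*} [Group G] {a b : Fin m → G}

theorem swap_conj (h : IsSurf a b) {j : ℕ} {σ T T' : MulAut G}
    (s1 : σ ∈ MR h j (j + 2)) (s3 : σ (ex a j) = cm a b j * ex a (j + 1) * (cm a b j)⁻¹)
    (s4 : σ (ex b j) = cm a b j * ex b (j + 1) * (cm a b j)⁻¹)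
    (hT : T ∈ MR h j (j + 1)) (hT' : T' ∈ MR h (j + 1) (j + 2))
    (hc : T (cm a b j) = cm a b j)
    (h1 : T (σ (ex a (j + 1))) = σ (T' (ex a (j + 1))))
    (h2 : T (σ (ex b (j + 1))) = σ (T' (ex b (j + 1)))) : T * σ = σ * T' := by
  apply ext_ex h
  intro l hl
  rw [MulAut.mul_apply, MulAut.mul_apply, MulAut.mul_apply, MulAut.mul_apply]
  by_cases hl1 : l = j + 1
  · subst hl1
    exact ⟨h1, h2⟩
  · by_cases hl2 : l = j
    · subst hl2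
      have t1 := MR_fix h hT (l + 1) (Or.inr le_rfl)
      have t2 := MR_fix h hT' l (Or.inl (Nat.lt_succ_self l))
      rw [t2.1, t2.2, s3, s4]
      simp only [map_mul, map_inv, hc, t1.1, t1.2]
      exact ⟨trivial, trivial⟩
    · have t1 := MR_fix h hT l (by omega)
      have t2 := MR_fix h hT' l (by omega)
      have t3 := MR_fix h s1 l (by omega)
      rw [t2.1, t2.2, t3.1, t3.2, t1.1, t1.2]
      exact ⟨rfl, rfl⟩

/-- The braid relation of the two twists of one handle. -/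
theorem braidAB (h : IsSurf a b) {j : ℕ} {A B : MulAut G} (hA : A ∈ MR h j (j + 1))
    (hB : B ∈ MR h j (j + 1)) (A1 : A (ex a j) = ex a j) (A2 : A (ex b j) = ex b j * ex a j)
    (B1 : B (ex a j) = ex a j * ex b j) (B2 : B (ex b j) = ex b j) :
    A * B⁻¹ * A = B⁻¹ * A * B⁻¹ := by
  have nB1 : B⁻¹ (ex a j) = ex a j * (ex b j)⁻¹ := by
    apply inv_of_eq
    simp only [map_mul, map_inv, B1, B2]
    group
  have nB2 : B⁻¹ (ex b j) = ex b j := inv_of_eq B2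
  have hB' := Subgroup.inv_mem _ hB
  apply eq_of_handle h (Subgroup.mul_mem _ (Subgroup.mul_mem _ hA hB') hA)
    (Subgroup.mul_mem _ (Subgroup.mul_mem _ hB' hA) hB')
  · simp only [MulAut.mul_apply, map_mul, map_inv, A1, A2, nB1, nB2]
    group
  · simp only [MulAut.mul_apply, map_mul, map_inv, A1, A2, nB1, nB2]
    group

end

section

variable {n : ℕ} {G : Type*} [Group G] {a b : Fin (n + 1) → G} {h : IsSurf a b}
  {N : Subgroup (MulAut G)}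

/-- Two elements of the second family whose quotient commutes with the twist along `b_j` modulo
`N` are equal. -/
theorem Sec_eq (hN : ∀ f ∈ MMs h, ∀ x ∈ N, f * x * f⁻¹ ∈ N) {j : ℕ} (hj : j + 1 ≤ n)
    {B ψ ψ' : MulAut G} (hB : B ∈ MR h j (j + 1)) (B1 : B (ex a j) = ex a j * ex b j)
    (p1 : ψ ∈ MR h 0 (j + 1)) (p1' : ψ' ∈ MR h 0 (j + 1))
    (p2 : ψ (ex a j) = ex a j) (p2' : ψ' (ex a j) = ex a j)
    (hd : ψ'⁻¹ * ψ * B * (ψ'⁻¹ * ψ)⁻¹ * B⁻¹ ∈ N) :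
    ψ (ex b j) * (ψ' (ex b j))⁻¹ ∈ (Kr h N).map (jR a b) := by
  have hK := KK_of hN
  have hin : ∀ {w : MulAut G}, w ∈ MR h 0 (j + 1) → w ∈ MR h 0 n :=
    fun hw => MR_mono h le_rfl hj hw
  have hδ : ψ'⁻¹ * ψ ∈ MR h 0 n :=
    Subgroup.mul_mem _ (Subgroup.inv_mem _ (hin p1')) (hin p1)
  have hBn : B ∈ MR h 0 n := MR_mono h (Nat.zero_le _) hj hB
  have h1 := N_move hN hd (Subgroup.mul_mem _ (Subgroup.mul_mem _ (Subgroup.mul_mem _ hδ hBn)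
    (Subgroup.inv_mem _ hδ)) (Subgroup.inv_mem _ hBn))
    (Subgroup.mul_mem _ (a_Hd (a := a) (b := b) (Nat.zero_le j) (by omega : j < n))
      (b_Hd (Nat.zero_le j) (by omega)))
  have e1 : B⁻¹ (ex a j * ex b j) = ex a j := inv_of_eq B1
  have e2 : (ψ'⁻¹ * ψ) (ex a j) = ex a j := by
    rw [MulAut.mul_apply, p2]
    exact inv_of_eq p2'
  have e3 : (ψ'⁻¹ * ψ)⁻¹ (ex a j) = ex a j := inv_of_eq e2
  rw [MulAut.mul_apply, MulAut.mul_apply, MulAut.mul_apply, e1, e3, B1, map_mul, e2] at h1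
  have e4 : (ex a j * ex b j)⁻¹ * (ex a j * (ψ'⁻¹ * ψ) (ex b j)) =
      (ex b j)⁻¹ * (ψ'⁻¹ * ψ) (ex b j) := by group
  rw [e4] at h1
  have h2 := hK.inv ψ' (hin p1') _ h1
  rw [map_mul, map_inv, ← MulAut.mul_apply, mul_inv_cancel_left] at h2
  have h3 := hK.conj (ψ' (ex b j)) (MR_map h le_rfl le_rfl (hin p1')
    (b_Hd (Nat.zero_le j) (by omega))) _ h2
  have e5 : ψ' (ex b j) * ((ψ' (ex b j))⁻¹ * ψ (ex b j)) * (ψ' (ex b j))⁻¹ =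
      ψ (ex b j) * (ψ' (ex b j))⁻¹ := by group
  rwa [e5] at h3

/-- The closed surface. -/
theorem last_step (hN : ∀ f ∈ MMs h, ∀ x ∈ N, f * x * f⁻¹ ∈ N) {j c t : ℕ} (hj : j + 1 = n)
    (hB : Big h N n c) (hS : Sec h ((Kr h N).map (jR a b)) j t)
    (hf : N.relIndex (MMs h) ≠ 0) : t * (t * c) ≤ N.relIndex (MMs h) := by
  classical
  subst hj
  obtain ⟨F, F1, F2, F3⟩ := hB
  obtain ⟨S, S1, S2, Sa, Sc, S3⟩ := hS
  obtain ⟨A, hA, A1, A2⟩ := exists_A h (j + 1) (by omega)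
  obtain ⟨B, hB, B1, B2⟩ := exists_B h (j + 1) (by omega)
  obtain ⟨A', hA', A1', A2'⟩ := exists_A h j (by omega)
  obtain ⟨B', hB', B1', B2'⟩ := exists_B h j (by omega)
  obtain ⟨σ, s1, ⟨s2a, s2b⟩, s3, s4⟩ := exists_swap' h j (by omega)
  have hMM : ∀ {lo hi : ℕ} {w : MulAut G}, w ∈ MR h lo hi → w ∈ MMs h :=
    fun hw => MR_MMs h _ _ hw
  have cA : A' (cm a b j) = cm a b j := by
    rw [cm]
    simp only [map_mul, map_inv, A1', A2']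
    group
  have cB : B' (cm a b j) = cm a b j := by
    rw [cm]
    simp only [map_mul, map_inv, B1', B2']
    group
  have kA : A' * σ = σ * A := swap_conj h s1 s3 s4 hA' hA cA
    (by rw [s2a, A1, s2a, A1']) (by rw [s2b, A2, map_mul, s2a, s2b, A2'])
  have kB : B' * σ = σ * B := swap_conj h s1 s3 s4 hB' hB cB
    (by rw [s2a, B1, map_mul, s2a, s2b, B1']) (by rw [s2b, B2, s2b, B2'])
  have kA' : A = σ⁻¹ * A' * σ := by rw [mul_assoc, kA, inv_mul_cancel_left]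
  have kB' : B = σ⁻¹ * B' * σ := by rw [mul_assoc, kB, inv_mul_cancel_left]
  have hσ : σ ∈ MMs h := hMM s1
  have hAM : A ∈ MMs h := hMM hA
  have hBM : B ∈ MMs h := hMM hB
  set ρ := (A * B⁻¹)⁻¹ with hρ
  have hρM : ρ ∈ MMs h := Subgroup.inv_mem _ (Subgroup.mul_mem _ hAM (Subgroup.inv_mem _ hBM))
  have kρ : A = ρ * B⁻¹ * ρ⁻¹ := by
    have h1 := braidAB h hA hB A1 A2 B1 B2
    have h2 : B⁻¹ * A * B⁻¹ = A * B⁻¹ * A := h1.symm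
    rw [hρ, inv_inv]
    calc A = (A * B⁻¹)⁻¹ * (A * B⁻¹ * A) := by group
      _ = (A * B⁻¹)⁻¹ * (B⁻¹ * A * B⁻¹) := by rw [h2]
      _ = _ := by group
  -- the family
  let ht : MulAut G → MulAut G := fun ψ => σ⁻¹ * ψ * σ
  have htM : ∀ ψ ∈ S, ht ψ ∈ MMs h := fun ψ hψ =>
    Subgroup.mul_mem _ (Subgroup.mul_mem _ (Subgroup.inv_mem _ hσ) (hMM (S2 ψ hψ))) hσ
  have htA : ∀ ψ ∈ S, A * ht ψ = ht ψ * A := by
    intro ψ hψ
    have h1 := Sc ψ hψ A' hA' A1' A2'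
    change A * (σ⁻¹ * ψ * σ) = σ⁻¹ * ψ * σ * A
    rw [kA']
    calc σ⁻¹ * A' * σ * (σ⁻¹ * ψ * σ) = σ⁻¹ * (A' * ψ) * σ := by group
      _ = _ := by rw [h1]; group
  have hFA : ∀ f ∈ F, A * f = f * A := fun f hf => MR_comm' h (by omega) hA (F2 f hf)
  have hFB : ∀ f ∈ F, B * f = f * B := fun f hf => MR_comm' h (by omega) hB (F2 f hf)
  have hFM : ∀ f ∈ F, f ∈ MMs h := fun f hf => hMM (F2 f hf)
  have hSeq : ∀ ψ ∈ S, ∀ ψ' ∈ S,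
      (ht ψ')⁻¹ * ht ψ * B * ((ht ψ')⁻¹ * ht ψ)⁻¹ * B⁻¹ ∈ N → ψ = ψ' := by
    intro ψ hψ ψ' hψ' h1
    have h2 := hN _ hσ _ h1
    have e1 : σ * ((ht ψ')⁻¹ * ht ψ * B * ((ht ψ')⁻¹ * ht ψ)⁻¹ * B⁻¹) * σ⁻¹ =
        ψ'⁻¹ * ψ * B' * (ψ'⁻¹ * ψ)⁻¹ * B'⁻¹ := by
      change σ * ((σ⁻¹ * ψ' * σ)⁻¹ * (σ⁻¹ * ψ * σ) * B *
        ((σ⁻¹ * ψ' * σ)⁻¹ * (σ⁻¹ * ψ * σ))⁻¹ * B⁻¹) * σ⁻¹ = _
      rw [kB']
      group
    rw [e1] at h2
    exact S3 ψ hψ ψ' hψ' (Sec_eq hN le_rfl hB' B1' (S2 ψ hψ) (S2 ψ' hψ') (Sa ψ hψ) (Sa ψ' hψ') h2)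
  let Φ : MulAut G × (MulAut G × MulAut G) → MulAut G :=
    fun x => ρ * ht x.1 * ρ⁻¹ * (ht x.2.1 * x.2.2)
  have key : ∀ ψ ∈ S, ∀ χ ∈ S, ∀ f ∈ F, ∀ ψ' ∈ S, ∀ χ' ∈ S, ∀ f' ∈ F,
      (Φ (ψ, χ, f))⁻¹ * Φ (ψ', χ', f') ∈ N → ψ = ψ' ∧ χ = χ' ∧ f = f' := by
    intro ψ hψ χ hχ f hf ψ' hψ' χ' hχ' f' hf' hν
    set ν := (Φ (ψ, χ, f))⁻¹ * Φ (ψ', χ', f') with hνd
    have d1 : (ρ * ht ψ' * ρ⁻¹)⁻¹ * (ρ * ht ψ * ρ⁻¹) =
        (ht χ' * f') * ν⁻¹ * (ht χ * f)⁻¹ := by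
      rw [hνd]
      change _ = ht χ' * f' * ((ρ * ht ψ * ρ⁻¹ * (ht χ * f))⁻¹ *
        (ρ * ht ψ' * ρ⁻¹ * (ht χ' * f')))⁻¹ * (ht χ * f)⁻¹
      group
    have c1 : ∀ χ ∈ S, ∀ f ∈ F, A * (ht χ * f) = ht χ * f * A := by
      intro χ hχ f hf
      have u1 : Commute A (ht χ) := htA χ hχ
      have u2 : Commute A f := hFA f hf
      exact (u1.mul_right u2).eq
    have r1 := rel_comm hN (Subgroup.mul_mem _ (htM χ' hχ') (hFM f' hf')) hAM (N.inv_mem hν) d1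
      (c1 χ hχ f hf) (c1 χ' hχ' f' hf')
    have r2 := hN _ (Subgroup.mul_mem _ hBM (Subgroup.inv_mem _ hρM)) _ (N.inv_mem r1)
    have e2 : B * ρ⁻¹ * ((ρ * ht ψ' * ρ⁻¹)⁻¹ * (ρ * ht ψ * ρ⁻¹) * A *
        ((ρ * ht ψ' * ρ⁻¹)⁻¹ * (ρ * ht ψ * ρ⁻¹))⁻¹ * A⁻¹)⁻¹ * (B * ρ⁻¹)⁻¹ =
        (ht ψ')⁻¹ * ht ψ * B * ((ht ψ')⁻¹ * ht ψ)⁻¹ * B⁻¹ := by
      have e3 : A⁻¹ = ρ * B * ρ⁻¹ := by
        rw [kρ]
        group
      calc B * ρ⁻¹ * ((ρ * ht ψ' * ρ⁻¹)⁻¹ * (ρ * ht ψ * ρ⁻¹) * A *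
          ((ρ * ht ψ' * ρ⁻¹)⁻¹ * (ρ * ht ψ * ρ⁻¹))⁻¹ * A⁻¹)⁻¹ * (B * ρ⁻¹)⁻¹ =
          B * ρ⁻¹ * (A⁻¹)⁻¹ * ρ * ((ht ψ')⁻¹ * ht ψ) * ρ⁻¹ * A⁻¹ * ρ * ((ht ψ')⁻¹ * ht ψ)⁻¹ *
            B⁻¹ := by group
        _ = _ := by
          rw [e3]
          group
    rw [e2] at r2
    have q1 := hSeq ψ hψ ψ' hψ' r2
    subst q1
    have d2 : (ht χ')⁻¹ * ht χ = f' * ν⁻¹ * f⁻¹ := by
      rw [hνd]
      change _ = f' * ((ρ * ht ψ * ρ⁻¹ * (ht χ * f))⁻¹ *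
        (ρ * ht ψ * ρ⁻¹ * (ht χ' * f')))⁻¹ * f⁻¹
      group
    have r3 := rel_comm hN (hFM f' hf') hBM (N.inv_mem hν) d2 (hFB f hf) (hFB f' hf')
    have q2 := hSeq χ hχ χ' hχ' r3
    subst q2
    refine ⟨rfl, rfl, F3 f hf f' hf' ?_⟩
    have e4 : f⁻¹ * f' = ν := by
      rw [hνd]
      change _ = (ρ * ht ψ * ρ⁻¹ * (ht χ * f))⁻¹ * (ρ * ht ψ * ρ⁻¹ * (ht χ * f'))
      group
    rw [e4]
    exact hν
  have hinj : Set.InjOn Φ (S ×ˢ (S ×ˢ F) : Finset (MulAut G × (MulAut G × MulAut G))) := by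
    rintro ⟨ψ, χ, f⟩ h1 ⟨ψ', χ', f'⟩ h2 h3
    rw [Finset.mem_coe, Finset.mem_product, Finset.mem_product] at h1 h2
    have h4 := key ψ h1.1 χ h1.2.1 f h1.2.2 ψ' h2.1 χ' h2.2.1 f' h2.2.2 (by
      rw [h3, inv_mul_cancel]
      exact N.one_mem)
    rw [h4.1, h4.2.1, h4.2.2]
  have hcard : ((S ×ˢ (S ×ˢ F)).image Φ).card = S.card * (S.card * F.card) := by
    rw [Finset.card_image_of_injOn hinj, Finset.card_product, Finset.card_product]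
  have hle := card_le_relIndex (N := N) (H := MMs h) (s := (S ×ˢ (S ×ˢ F)).image Φ) (by
      intro g hg
      obtain ⟨⟨ψ, χ, f⟩, h1, rfl⟩ := Finset.mem_image.1 hg
      rw [Finset.mem_product, Finset.mem_product] at h1
      exact Subgroup.mul_mem _ (Subgroup.mul_mem _ (Subgroup.mul_mem _ hρM (htM ψ h1.1))
        (Subgroup.inv_mem _ hρM)) (Subgroup.mul_mem _ (htM χ h1.2.1) (hFM f h1.2.2))) (by
      intro g hg g' hg' h5
      obtain ⟨⟨ψ, χ, f⟩, h1, rfl⟩ := Finset.mem_image.1 hg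
      obtain ⟨⟨ψ', χ', f'⟩, h2, rfl⟩ := Finset.mem_image.1 hg'
      rw [Finset.mem_product, Finset.mem_product] at h1 h2
      have h6 := key ψ h1.1 χ h1.2.1 f h1.2.2 ψ' h2.1 χ' h2.2.1 f' h2.2.2 h5
      rw [h6.1, h6.2.1, h6.2.2]) hf
  rw [hcard] at hle
  exact (Nat.mul_le_mul S1 (Nat.mul_le_mul S1 F1)).trans hle

/-- The number of classes for genus `i + 3`. -/
def cnt (i : ℕ) : ℕ :=
  (6 * 4 ^ ((i + 1).choose 2)) * ((6 * 4 ^ ((i + 1).choose 2)) *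
    (6 * 18 ^ (i + 1) * 4 ^ ((i + 3).choose 3 + (i + 2).choose 3)))

theorem growth_alt2 (hN : ∀ f ∈ MMs h, ∀ x ∈ N, f * x * f⁻¹ ∈ N) {i : ℕ} (hi : i + 2 = n)
    (hf : N.relIndex (MMs h) ≠ 0) (hlt : N.relIndex (MMs h) < cnt i) :
    ∃ l, ∃ hl : l + 1 < n, ∀ g ∈ Hd a b 0 (l + 1), g ∈ GG (KK_of hN) (l + 1) hl.le := by
  by_contra hcon
  push Not at hcon
  have hne : ∀ l (hl : l + 1 < n), ¬ ∀ g ∈ Hd a b 0 (l + 1), g ∈ GG (KK_of hN) (l + 1) hl.le := by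
    intro l hl h2
    obtain ⟨g, g1, g2⟩ := hcon l hl
    exact g2 (h2 g g1)
  have h1 := Big_all2 hN (by omega) hne (i + 1) (by omega)
  have h2 := Sec_all hN (by omega) hne (i := i) (by omega)
  subst hi
  have h3 := last_step hN (j := i + 1) rfl h1 h2 hf
  exact absurd hlt (not_lt.2 h3)

end

theorem cnt_succ (i : ℕ) :
    cnt (i + 1) = 18 * 2 ^ (4 * (i + 1)) * 2 ^ (2 * (i + 2) ^ 2) * cnt i := by
  have e1 : (i + 1 + 1).choose 2 = (i + 1) + (i + 1).choose 2 := by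
    rw [Nat.choose_succ_succ' (i + 1) 1, Nat.choose_one_right]
  have e2 : (i + 1 + 3).choose 3 = (i + 3).choose 2 + (i + 3).choose 3 :=
    Nat.choose_succ_succ' (i + 3) 2
  have e3 : (i + 1 + 2).choose 3 = (i + 2).choose 2 + (i + 2).choose 3 :=
    Nat.choose_succ_succ' (i + 2) 2
  have e4 : (i + 3).choose 2 + (i + 2).choose 2 = (i + 2) ^ 2 := by
    have h1 : (i + 3).choose 2 = (i + 2) + (i + 2).choose 2 := by
      rw [Nat.choose_succ_succ' (i + 2) 1, Nat.choose_one_right]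
    have h2 : (i + 2).choose 2 * 2 = (i + 2) * (i + 1) := by
      have := Nat.triangle_succ (i + 1)
      rw [Nat.choose_two_right]
      exact Nat.div_mul_cancel (by
        rw [Nat.add_sub_cancel_right (i + 1) 1 |>.symm] at *
        exact (Nat.even_mul_pred_self (i + 2)).two_dvd)
    rw [h1]
    nlinarith
  have e5 : (2 : ℕ) ^ (2 * (i + 2) ^ 2) = 4 ^ ((i + 3).choose 2 + (i + 2).choose 2) := by
    rw [e4, pow_mul]
    norm_num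
  have e6 : (2 : ℕ) ^ (4 * (i + 1)) = 4 ^ (i + 1) * 4 ^ (i + 1) := by
    rw [← pow_add, show (4 : ℕ) = 2 ^ 2 by norm_num, ← pow_mul]
    congr 1
    ring
  unfold cnt
  rw [e1, e2, e3, e5, e6]
  ring

/-- A simple lower bound. -/
theorem cnt_ge (g : ℕ) (hg : 5 ≤ g) : 2 ^ (g * (g + 1) * (2 * g - 5) / 3 + 10) ≤ cnt (g - 3) := by
  induction g, hg using Nat.le_induction with
  | base => decide
  | succ g hg ih =>
    obtain ⟨i, rfl⟩ : ∃ i, g = i + 3 := ⟨g - 3, by omega⟩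
    have h1 : i + 3 - 3 = i := by omega
    have h2 : i + 3 + 1 - 3 = i + 1 := by omega
    have h3 : 2 * (i + 3) - 5 = 2 * i + 1 := by omega
    have h4 : 2 * (i + 3 + 1) - 5 = 2 * i + 3 := by omega
    rw [h1, h3] at ih
    rw [h2, h4, cnt_succ]
    have h5 : (i + 3 + 1) * (i + 3 + 1 + 1) * (2 * i + 3) =
        (i + 3) * (i + 3 + 1) * (2 * i + 1) + 3 * (2 * (i + 2) * (i + 4)) := by ring
    have h6 : (i + 3 + 1) * (i + 3 + 1 + 1) * (2 * i + 3) / 3 + 10 =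
        ((i + 3) * (i + 3 + 1) * (2 * i + 1) / 3 + 10) + (4 + 4 * (i + 1) + 2 * (i + 2) ^ 2) := by
      rw [h5, Nat.add_mul_div_left _ _ (by norm_num : 0 < 3)]
      ring
    rw [h6, Nat.pow_add 2 ((i + 3) * (i + 3 + 1) * (2 * i + 1) / 3 + 10), mul_comm]
    refine Nat.mul_le_mul ?_ ih
    have h7 : (2 : ℕ) ^ (4 + 4 * (i + 1) + 2 * (i + 2) ^ 2) =
        16 * 2 ^ (4 * (i + 1)) * 2 ^ (2 * (i + 2) ^ 2) := by
      rw [Nat.pow_add, Nat.pow_add]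
    rw [h7]
    exact Nat.mul_le_mul (Nat.mul_le_mul (by norm_num) le_rfl) le_rfl

end Pool.Agent.H.MP_59b15d_al.H62G
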