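import Mathlib
import Pool.Agent.H.MP_59b15d_al.h62g.Last
import Pool.Agent.H.MP_59b15d_al.h95g.Out
import Pool.Agent.H.MP_59b15d_al.h93c.Final
import Pool.Agent.H.MP_59b15d_al.pk.Fin3

set_option autoImplicit false

/-!
# The congruence property for normal subgroups of small index
-/

namespace Pool.Agent.H.MP_59b15d_al.H62G

open Pool.MP_59b15d_al.H24T Pool.MP_59b15d_al.H76R Pool.MP_59b15d_al.H73E
open Pool.MP_59b15d_al.H60G Pool.MP_59b15d_al.H95G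
open Pool.Agent.H.MP_59b15d_al.H93C Pool.Agent.H.MP_59b15d_al.H73X
open Pool.MP_59b15d_al.H76 (StdGen InnMod)

section

variable {n : ℕ} {G : Type*} [Group G] {a b : Fin (n + 1) → G}

/-- Growth: the relations modulo a subgroup with few cosets. -/
theorem growth2 (h : IsSurf a b) (N : Subgroup (MulAut G))
    (hN : ∀ f ∈ MMs h, ∀ x ∈ N, f * x * f⁻¹ ∈ N) {i : ℕ} (hi : i + 2 = n) (hn : 3 ≤ n)
    (hf : N.relIndex (MMs h) ≠ 0) (hlt : N.relIndex (MMs h) < cnt i) :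
    (∀ i j : Fin n, i ≠ j → ∀ x ∈ Hf n i, ∀ y ∈ Hf n j, XX h (x * y * x⁻¹ * y⁻¹) ∈ N) ∧
    (∀ i j : Fin n, XX h (cf i * (cf j)⁻¹) ∈ N) ∧
    ∀ (i : Fin n) (z : Fr n), XX h (cf i * z * (cf i)⁻¹ * z⁻¹) ∈ N := by
  obtain ⟨l, hl, h1⟩ := growth_alt2 hN hi hf hlt
  have h2 := CC_all (Nat.le_succ n) hl (CC_of_GG (KK_of hN) hl (Nat.le_succ n) h1)
  have h3 := CC_exact hN hn fun i j hij x hx y hy => comm_of_CC h2 hij hx hy
  have h4 : ∀ i j : Fin n, i ≠ j → ∀ x ∈ Hf n i, ∀ y ∈ Hf n j, x * y * x⁻¹ * y⁻¹ ∈ Kc h N :=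
    fun i j hij x hx y hy => comm_of_CC h3 hij hx hy
  exact ⟨fun i j hij x hx y hy => (h4 i j hij x hx y hy).2, fun i j => (cf_eq_all hN h4 i j).2,
    fun i z => (cf_central hN (by omega) h4 i z).2⟩

end

/-- **The theorem.** -/
theorem normal_index (g : ℕ) (hg : 5 ≤ g) (G : Type*) [Group G] (a b : Fin g → G)
    (h : StdGen a b) (N : Subgroup (MulAut G)) (hN : ∀ ψ ∈ MCG a b, ∀ x ∈ N, ψ * x * ψ⁻¹ ∈ N)
    (hI : ∀ x : G, MulAut.conj x ∈ N) (h0 : N.relIndex (MCG a b) ≠ 0)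
    (hlt : N.relIndex (MCG a b) < 2 ^ (g * (g + 1) * (2 * g - 5) / 3 + 10)) :
    ∃ Γ : Subgroup G, Γ.Characteristic ∧ Γ.FiniteIndex ∧
      ∀ φ ∈ MCG a b, InnMod Γ φ → φ ∈ N := by
  have hs : IsSurf a b := by obtain ⟨e, he⟩ := h; exact ⟨⟨e, he⟩⟩
  have hlt' := lt_of_lt_of_le hlt (cnt_ge g hg)
  obtain ⟨n, rfl⟩ : ∃ n, g = n + 1 := ⟨g - 1, by omega⟩
  have hM : MCG a b = MMs hs := MCG_eq hs
  rw [hM] at hN h0 hlt' ⊢
  obtain ⟨h1, h2, h3⟩ := growth2 hs N hN (i := n + 1 - 3) (by omega) (by omega) h0 hlt'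
  exact congr_of_rels hs (by omega) N hN hI h0 ⟨h1, h2, h3⟩

end Pool.Agent.H.MP_59b15d_al.H62G
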